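import Pool.Agent.Lib.MP_2619d0_ag.Q8.W0

/-!
# Theorem Q12: double base points, definitions
-/

set_option autoImplicit false

namespace MP2619.Q6

open scoped NNReal
open IntermediateField MP2619.R MP2619.N Pool.Agent.Lib.MP_2619d0_ag Pool.Agent.Lib.MP_2619d0_ag.T
  MP2619.Q5

/-- the Taylor polynomial `g (P0 + X)` -/
noncomputable def tay {N : ℕ} {k κ : Type} [Field k] [Field κ] [Algebra k κ] (P0 : Fin N → κ)
    (g : MvPolynomial (Fin N) k) : MvPolynomial (Fin N) κ :=
  MvPolynomial.aeval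
    (fun j => MvPolynomial.C (P0 j) + MvPolynomial.X j : Fin N → MvPolynomial (Fin N) κ) g

/-- the quadratic part of `g` at `P0` -/
noncomputable def qp {N : ℕ} {k κ : Type} [Field k] [Field κ] [Algebra k κ] (P0 : Fin N → κ)
    (g : MvPolynomial (Fin N) k) : MvPolynomial (Fin N) κ :=
  MvPolynomial.homogeneousComponent 2 (tay P0 g)

/-- the polynomials `f i (G diag((1 + X)^wt) τ)` -/
noncomputable def Bk.Lp {n N s : ℕ} (K : Bk n N s) {k0 B L : Type} [Field k0] [Field B] [Field L]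
    [Algebra k0 L] [Algebra B L] {r : ℕ} (f : Fin r → MvPolynomial (Fin N) k0)
    (G : Fin N → Fin N → B) (τ : Fin N → L) (i : Fin r) : Polynomial L :=
  MvPolynomial.aeval (fun a => ∑ j, Polynomial.C (algebraMap B L (K.bd G a j) * τ j) *
    (1 + Polynomial.X) ^ (K.wt j)) (f i)

/-- some coefficient of order at most two of `f i (G diag((1 + X)^wt) τ)` is not zero -/
def Bk.Low2 {n N s : ℕ} (K : Bk n N s) {k0 B L : Type} [Field k0] [Field B] [Field L]
    [Algebra k0 L] [Algebra B L] {r : ℕ} (f : Fin r → MvPolynomial (Fin N) k0)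
    (G : Fin N → Fin N → B) (τ : Fin N → L) : Prop :=
  ∃ k ≤ 2, ∃ i, (K.Lp f G τ i).coeff k ≠ 0

end MP2619.Q6
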