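import Pool.Agent.Lib.MP_2619d0_ag.Q8.V20
import Pool.Agent.Lib.MP_2619d0_ag.U.E6
import Pool.Agent.Lib.MP_2619d0_ag.Y.Y0

/-!
# The torus path near a zero of order at most two
-/

set_option autoImplicit false

namespace MP2619.Q6

open scoped NNReal
open IntermediateField MP2619.R MP2619.N Pool.Agent.Lib.MP_2619d0_ag Pool.Agent.Lib.MP_2619d0_ag.T
  MP2619.Q5

variable {k0 B M L : Type} [Field k0] [Field B] [Field M] [Field L]
  [Algebra k0 B] [Algebra k0 M] [Algebra k0 L]
  [Algebra B M] [Algebra B L] [IsScalarTower k0 B M] [IsScalarTower k0 B L] {m n N s : ℕ}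
  {K : Bk n N s} {f : Fin (m + 2) → MvPolynomial (Fin N) k0} {G : Fin N → Fin N → B} {ε ε' : M}
  {S : Fin N → M} {α β : M} {σ : M ≃ₐ[B] M} {P : ValuationSubring M} {φ : P →+* L}
  {x y : Fin (m + 2) → P} {w : B} {a : Fin (m + 2)}

/-- the constants in `P` -/
private def Y7_j (rm : RMap B P φ) : B →+* P where
  toFun b := ⟨algebraMap B M b, rm.cst b⟩
  map_one' := Subtype.ext (map_one _)
  map_mul' _ _ := Subtype.ext (map_mul _ _ _)
  map_zero' := Subtype.ext (map_zero _)
  map_add' _ _ := Subtype.ext (map_add _ _ _)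

/-- the polynomials `f i (G diag((1 + X)^wt) U)` over `P` -/
private noncomputable def Y7_G (K : Bk n N s) (rm : RMap B P φ)
    (f : Fin (m + 2) → MvPolynomial (Fin N) k0) (G : Fin N → Fin N → B) (U : Fin N → P)
    (i : Fin (m + 2)) : Polynomial P :=
  MvPolynomial.eval₂ (Polynomial.C.comp ((Y7_j rm).comp (algebraMap k0 B)))
    (fun a => ∑ j, Polynomial.C (Y7_j rm (K.bd G a j) * U j) * (1 + Polynomial.X) ^ (K.wt j)) (f i)

private theorem Y7_eval (K : Bk n N s) (rm : RMap B P φ)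
    (f : Fin (m + 2) → MvPolynomial (Fin N) k0) (G : Fin N → Fin N → B) (U : Fin N → P)
    (i : Fin (m + 2)) (t : P) :
    (((Y7_G K rm f G U i).eval t : P) : M) =
      fe f (pt (K.bd G) (K.dg (t : M) (fun j => (U j : M)))) i := by
  have h1 := MvPolynomial.hom_eval₂ (f i)
    (Polynomial.C.comp ((Y7_j rm).comp (algebraMap k0 B)))
    (P.subtype.comp (Polynomial.evalRingHom t))
    (fun a => ∑ j, Polynomial.C (Y7_j rm (K.bd G a j) * U j) * (1 + Polynomial.X) ^ (K.wt j))
  have h2 : (((Y7_G K rm f G U i).eval t : P) : M) =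
      (P.subtype.comp (Polynomial.evalRingHom t)) (Y7_G K rm f G U i) := rfl
  rw [h2]
  unfold Y7_G
  rw [h1]
  unfold fe
  rw [MvPolynomial.aeval_def]
  have h3 : (P.subtype.comp (Polynomial.evalRingHom t)).comp
      (Polynomial.C.comp ((Y7_j rm).comp (algebraMap k0 B))) = algebraMap k0 M := by
    ext c
    rw [IsScalarTower.algebraMap_apply k0 B M]
    simp only [RingHom.comp_apply, Polynomial.coe_evalRingHom, Polynomial.eval_C]
    rfl
  rw [h3]
  congr 1
  funext a
  unfold pt Bk.dg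
  simp only [RingHom.comp_apply, Polynomial.coe_evalRingHom, Polynomial.eval_finset_sum,
    Polynomial.eval_mul, Polynomial.eval_C, Polynomial.eval_pow, Polynomial.eval_add,
    Polynomial.eval_one, Polynomial.eval_X, map_sum, map_mul, map_pow, map_add, map_one]
  refine Finset.sum_congr rfl fun j _ => ?_
  have e1 : P.subtype (Y7_j rm (K.bd G a j)) = algebraMap B M (K.bd G a j) := rfl
  have e2 : P.subtype (U j) = (U j : M) := rfl
  have e3 : P.subtype t = (t : M) := rfl
  rw [e1, e2, e3]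
  ring

private theorem Y7_map (K : Bk n N s) (rm : RMap B P φ)
    (f : Fin (m + 2) → MvPolynomial (Fin N) k0) (G : Fin N → Fin N → B) (U : Fin N → P)
    (i : Fin (m + 2)) :
    (Y7_G K rm f G U i).map φ = K.Lp f G (fun j => φ (U j)) i := by
  have h1 := MvPolynomial.hom_eval₂ (f i)
    (Polynomial.C.comp ((Y7_j rm).comp (algebraMap k0 B)))
    (Polynomial.mapRingHom φ)
    (fun a => ∑ j, Polynomial.C (Y7_j rm (K.bd G a j) * U j) * (1 + Polynomial.X) ^ (K.wt j))
  have h2 : (Y7_G K rm f G U i).map φ = (Polynomial.mapRingHom φ) (Y7_G K rm f G U i) := rfl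
  rw [h2]
  unfold Y7_G
  rw [h1]
  unfold Bk.Lp
  rw [MvPolynomial.aeval_def]
  have h3 : (Polynomial.mapRingHom φ).comp
      (Polynomial.C.comp ((Y7_j rm).comp (algebraMap k0 B))) = algebraMap k0 (Polynomial L) := by
    ext1 c
    simp only [RingHom.comp_apply, Polynomial.coe_mapRingHom, Polynomial.map_C]
    have e1 : φ (Y7_j rm (algebraMap k0 B c)) = algebraMap B L (algebraMap k0 B c) := rm.alg _
    rw [e1, ← IsScalarTower.algebraMap_apply k0 B L]
    rfl
  rw [h3]
  congr 1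
  funext a
  simp only [Polynomial.coe_mapRingHom, Polynomial.map_sum, Polynomial.map_mul, Polynomial.map_C,
    Polynomial.map_pow, Polynomial.map_add, Polynomial.map_one, Polynomial.map_X, map_mul]
  refine Finset.sum_congr rfl fun j _ => ?_
  have e1 : φ (Y7_j rm (K.bd G a j)) = algebraMap B L (K.bd G a j) := rm.alg _
  rw [e1]

private theorem Y7_co (K : Bk n N s) (rm : RMap B P φ)
    (f : Fin (m + 2) → MvPolynomial (Fin N) k0) (G : Fin N → Fin N → B) (U : Fin N → P)
    (Q1 : IntermediateField B M) (hU : ∀ j, (U j : M) ∈ Q1) (i : Fin (m + 2)) (k : ℕ) :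
    (((Y7_G K rm f G U i).coeff k : P) : M) ∈ Q1 := by
  have h1 := MvPolynomial.hom_eval₂ (f i)
    (Polynomial.C.comp ((Y7_j rm).comp (algebraMap k0 B)))
    (Polynomial.mapRingHom P.subtype)
    (fun a => ∑ j, Polynomial.C (Y7_j rm (K.bd G a j) * U j) * (1 + Polynomial.X) ^ (K.wt j))
  have h2 := MvPolynomial.hom_eval₂ (f i)
    (Polynomial.C.comp ((algebraMap B Q1).comp (algebraMap k0 B)))
    (Polynomial.mapRingHom (algebraMap Q1 M))
    (fun a => ∑ j, Polynomial.C (algebraMap B Q1 (K.bd G a j) * (⟨(U j : M), hU j⟩ : Q1)) *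
      (1 + Polynomial.X) ^ (K.wt j))
  have h3 : (Polynomial.mapRingHom P.subtype) (Y7_G K rm f G U i) =
      (Polynomial.mapRingHom (algebraMap Q1 M)) (MvPolynomial.eval₂
        (Polynomial.C.comp ((algebraMap B Q1).comp (algebraMap k0 B)))
        (fun a => ∑ j, Polynomial.C (algebraMap B Q1 (K.bd G a j) * (⟨(U j : M), hU j⟩ : Q1)) *
          (1 + Polynomial.X) ^ (K.wt j)) (f i)) := by
    unfold Y7_G
    rw [h1, h2]
    have e1 : (Polynomial.mapRingHom P.subtype).comp
        (Polynomial.C.comp ((Y7_j rm).comp (algebraMap k0 B))) =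
        (Polynomial.mapRingHom (algebraMap Q1 M)).comp
        (Polynomial.C.comp ((algebraMap B Q1).comp (algebraMap k0 B))) := by
      ext1 c
      simp only [RingHom.comp_apply, Polynomial.coe_mapRingHom, Polynomial.map_C]
      rfl
    rw [e1]
    congr 1
    funext a
    simp only [Polynomial.coe_mapRingHom, Polynomial.map_sum, Polynomial.map_mul,
      Polynomial.map_C, Polynomial.map_pow, Polynomial.map_add, Polynomial.map_one,
      Polynomial.map_X, map_mul]
    refine Finset.sum_congr rfl fun j _ => ?_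
    rfl
  have h4 := congrArg (fun p => Polynomial.coeff p k) h3
  simp only [Polynomial.coe_mapRingHom, Polynomial.coeff_map] at h4
  have h5 : (((Y7_G K rm f G U i).coeff k : P) : M) =
      P.subtype ((Y7_G K rm f G U i).coeff k) := rfl
  rw [h5, h4]
  exact SetLike.coe_mem _

private theorem Y7_fix (σ : M ≃ₐ[B] M) (S : Fin N → M) (h : ∀ j, σ (S j) = S j) :
    ∀ z ∈ adjoin B (Set.range S), σ z = z := by
  intro z hz
  induction hz using adjoin_induction with
  | mem z hz =>
    obtain ⟨i, rfl⟩ := hz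
    exact h i
  | algebraMap c => rw [AlgEquiv.commutes]
  | add x y hx hy h1 h2 => rw [map_add, h1, h2]
  | inv x hx h1 => rw [map_inv₀, h1]
  | mul x y hx hy h1 h2 => rw [map_mul, h1, h2]

private theorem Y7_smul {k M σ : Type} [Fintype σ] [Field k] [Field M] [Algebra k M] {d : ℕ}
    (F : MvPolynomial σ k) (hd : F.IsHomogeneous d) (c : M) (p : σ → M) :
    MvPolynomial.aeval (fun j => c * p j) F = c ^ d * MvPolynomial.aeval p F := by
  rw [MvPolynomial.aeval_def, MvPolynomial.aeval_def, MvPolynomial.eval₂_eq',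
    MvPolynomial.eval₂_eq', Finset.mul_sum]
  refine Finset.sum_congr rfl fun m hm => ?_
  have h1 : m.degree = d := by
    by_contra h
    exact (MvPolynomial.mem_support_iff.1 hm) (hd.coeff_eq_zero h)
  have h2 : ∏ j, c ^ m j = c ^ d := by
    rw [Finset.prod_pow_eq_pow_sum, ← h1, Finsupp.degree_eq_sum]
  rw [← h2]
  simp only [mul_pow, Finset.prod_mul_distrib]
  ring

private theorem Y7_van {k M : Type} [Field k] [Field M] [Algebra k M]
    (F0 : MvPolynomial (Fin (m + 2)) k) {e : ℕ} (h3 : F0.IsHomogeneous e)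
    (f : Fin (m + 2) → MvPolynomial (Fin N) k)
    (h0 : MvPolynomial.aeval f F0 = 0) (p : Fin N → M) (α : M) :
    MvPolynomial.aeval (fun i => α * fe f p i) F0 = 0 := by
  rw [Y7_smul F0 h3]
  have h1 := MvPolynomial.comp_aeval_apply (R := k) f (MvPolynomial.aeval p) F0
  rw [h0, map_zero] at h1
  have h2 : MvPolynomial.aeval (fe f p) F0 = 0 := h1.symm
  rw [h2, mul_zero]

private theorem Y7_le {K : Bk n N s} (f : Fin (m + 2) → MvPolynomial (Fin N) k0)
    (G : Fin N → Fin N → B) (S : Fin N → M)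
    (L0 : IntermediateField B M) (hL : ∀ j, S j ∈ L0)
    (h c : M) (hh : h ∈ L0) : rat B (fun i => c * fe f (K.pS G S h) i) ≤ L0 := by
  refine (rat_smul_le _ _).trans ?_
  have h4 : ∀ j, K.dg h S j ∈ L0 := by
    intro j
    unfold Bk.dg
    exact L0.mul_mem (pow_mem (L0.add_mem L0.one_mem hh) _) (hL j)
  have h5 : ∀ i, fe f (K.pS G S h) i ∈ L0 := by
    intro i
    have h6 : fe f (K.pS G S h) i ∈ L0.restrictScalars k0 :=
      fe_mem f (L0.restrictScalars k0) _ (fun j => pt_mem L0 _ _ h4 j) i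
    exact h6
  conv_lhs => unfold rat
  rw [IntermediateField.adjoin_le_iff]
  rintro _ ⟨i, l, rfl⟩
  exact L0.div_mem (h5 i) (h5 l)

/-- the residue field of `B(S)` at a place over a zero -/
private theorem Y7_tr1 (D : ℕ) (hm : m = D + 1) (E : K.Esc8 f G ε ε' S α β σ P φ x y w a)
    (J : Fin s → Fin N) (hJ0 : ∀ i, S (J i) ≠ 0)
    (hT : ∀ j, K.nm J S j ∈ P)
    (hz : fe f (pt (K.bd G) (fun j => φ ⟨_, hT j⟩)) = 0) :
    Algebra.trdeg B (resI E.rm (adjoin B (Set.range S))) ≤ D := by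
  obtain ⟨d, hd⟩ := E.hom
  have rm0 : RMap k0 P φ := RMap.restrict E.rm
  obtain ⟨i, hi⟩ := Function.ne_iff.1 E.x0
  rw [Pi.zero_apply] at hi
  have hnm := K.fe_dg_nm f hd G J S hJ0 0 i
  rw [K.dg_zero, K.dg_zero] at hnm
  rw [hnm] at hi
  have hg0 : fe f (pt (K.bd G) (K.nm J S)) i ≠ 0 := right_ne_zero_of_mul hi
  set QS : IntermediateField B M := adjoin B (Set.range S) with hQS
  have hSm : ∀ j, S j ∈ QS := fun j => subset_adjoin _ _ ⟨j, rfl⟩
  have hUm : ∀ j, K.nm J S j ∈ QS := fun j => div_mem (hSm _) (hSm _)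
  have hpm : ∀ j, pt (K.bd G) (K.nm J S) j ∈ QS := pt_mem QS (K.bd G) _ hUm
  have hgm : fe f (pt (K.bd G) (K.nm J S)) i ∈ QS := by
    have h1 := fe_mem f (QS.restrictScalars k0) (pt (K.bd G) (K.nm J S))
      (fun j => (IntermediateField.mem_restrictScalars k0).2 (hpm j)) i
    exact (IntermediateField.mem_restrictScalars k0).1 h1
  choose p hp1 hp2 using fun i => pt_res E.rm (K.bd G) (fun j => (⟨K.nm J S j, hT j⟩ : P)) i
  obtain ⟨g, hg1, hg2⟩ := fe_res f rm0 p i
  have hg3 : (g : M) = fe f (pt (K.bd G) (K.nm J S)) i := by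
    rw [hg1]
    congr 2
    funext j
    exact hp1 j
  have hg4 : φ g = 0 := by
    rw [hg2]
    have h1 : (fun j => φ (p j)) = pt (K.bd G) (fun j => φ ⟨K.nm J S j, hT j⟩) := funext hp2
    rw [h1, hz]
    rfl
  have hg5 : P.valuation (fe f (pt (K.bd G) (K.nm J S)) i) < 1 := by
    rw [← hg3]
    exact (E.rm.zero g).1 hg4
  have htr : Algebra.trdeg B QS ≤ (D + 1 : ℕ) := by
    rw [← hm]
    exact E.tr
  exact trdeg_resI_lt E.rm QS D htr _ hgm hg0 hg5

/-- the residue field of `B(S, ε)` -/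
private theorem Y7_trj (E : K.Esc8 f G ε ε' S α β σ P φ x y w a) :
    Algebra.trdeg B (resI E.rm (adjoin B (Set.range S)) ⊔
      rat B (fun i => φ (x i)) ⊔ rat B (fun i => φ (y i)) : IntermediateField B L) ≤ m := by
  classical
  set L0 : IntermediateField B M := adjoin B (insert ε (Set.range S)) with hLdef
  have hLtr : Algebra.trdeg B L0 ≤ (m + 1 : ℕ) := trdeg_insert8 (Set.range S) ε m E.tr
  have hε : ε ∈ L0 := subset_adjoin B _ (Set.mem_insert _ _)
  have hε' : ε' ∈ L0 := by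
    have h2 : ε' = (1 + ε)⁻¹ - 1 := by
      rw [eq_sub_iff_add_eq, add_comm]
      exact eq_inv_of_mul_eq_one_right E.ee
    rw [h2]
    exact sub_mem (inv_mem (add_mem (one_mem _) hε)) (one_mem _)
  have hS : ∀ j, S j ∈ L0 := fun j => subset_adjoin B _ (Set.mem_insert_of_mem _ ⟨j, rfl⟩)
  have htr := trdeg_resI_lt E.rm L0 m hLtr ε hε E.e0 E.eps
  have hx : rat B (fun i => φ (x i)) ≤ resI E.rm L0 := by
    refine rat_resI E.rm x L0 ?_
    have h1 : (fun i => (x i : M)) = fun i => α * fe f (K.pS G S ε') i := funext E.x_eq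
    rw [h1]
    exact Y7_le f G S L0 hS ε' α hε'
  have hy : rat B (fun i => φ (y i)) ≤ resI E.rm L0 := by
    refine rat_resI E.rm y L0 ?_
    have h1 : (fun i => (y i : M)) = fun i => β * fe f (K.pS G S ε) i := funext E.y_eq
    rw [h1]
    exact Y7_le f G S L0 hS ε β hε
  have hQ : resI E.rm (adjoin B (Set.range S)) ≤ resI E.rm L0 := by
    intro z hz
    obtain ⟨c, hc, rfl⟩ := (mem_resI E.rm _ _).1 hz
    exact (mem_resI E.rm _ _).2 ⟨c, adjoin.mono B _ _ (Set.subset_insert _ _) hc, rfl⟩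
  have hle : (resI E.rm (adjoin B (Set.range S)) ⊔
      rat B (fun i => φ (x i)) ⊔ rat B (fun i => φ (y i)) : IntermediateField B L) ≤
      resI E.rm L0 := sup_le (sup_le hQ hx) hy
  exact (_root_.trdeg_le_of_injective (IntermediateField.inclusion hle)
    (IntermediateField.inclusion hle).injective).trans htr

/-- ESC2 for the torus path -/
theorem esc8_out [CharZero B] (D : ℕ) (hm : m = D + 1)
    (E : K.Esc8 f G ε ε' S α β σ P φ x y w a)
    (F0 : MvPolynomial (Fin (m + 2)) k0) (h3 : F0.IsHomogeneous 3)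
    (h0 : MvPolynomial.aeval f F0 = 0) (J : Fin s → Fin N)
    (hJ0 : ∀ i, S (J i) ≠ 0) (hT : ∀ j, K.nm J S j ∈ P)
    (hz : fe f (pt (K.bd G) (fun j => φ ⟨_, hT j⟩)) = 0)
    (hl : K.Low2 f G (fun j => φ ⟨_, hT j⟩)) :
    Out (MvPolynomial.map (algebraMap k0 B) F0) (fun i => φ (x i)) (fun i => φ (y i)) := by
  classical
  obtain ⟨d, hd⟩ := E.hom
  have hεP' : ε' ∈ P := (P.valuation_le_one_iff _).1 E.eps'.le
  have hεP : ε ∈ P := (P.valuation_le_one_iff _).1 E.eps.le
  have hσε' : σ ε' = ε := by rw [← E.s_e, E.s_s]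
  have hε'0 : ε' ≠ 0 := by
    intro h
    apply E.e0
    rw [← hσε', h, map_zero]
  have cL : CharZero L := charZero_of_injective_algebraMap (algebraMap B L).injective
  have cM : CharZero M := charZero_of_injective_algebraMap (algebraMap B M).injective
  -- the inverses
  have hinv : ε'⁻¹ = -ε⁻¹ - 1 := by
    have h1 : ε * ε' + ε + ε' = 0 := by linear_combination E.ee
    have e0 := E.e0
    field_simp
    linear_combination h1
  have h2v : P.valuation (2 : M) = 1 := by
    have h1 : (2 : M) ∈ P := by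
      have : (2 : M) = ((2 : P) : M) := rfl
      rw [this]
      exact SetLike.coe_mem _
    refine le_antisymm ((P.valuation_le_one_iff _).2 h1) (not_lt.1 fun h => ?_)
    have h4 := (E.rm.zero ⟨2, h1⟩).2 h
    have h5 : (⟨2, h1⟩ : P) = 2 := rfl
    rw [h5, map_ofNat] at h4
    exact two_ne_zero h4
  have hω : ε⁻¹ - ε'⁻¹ = (2 + ε) * ε⁻¹ := by
    rw [hinv, add_mul, mul_inv_cancel₀ E.e0]
    ring
  have h2ε : P.valuation (2 + ε) = 1 := by
    have h1 : P.valuation ε < P.valuation (2 : M) := by rw [h2v]; exact E.eps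
    rw [Valuation.map_add_eq_of_lt_left _ h1, h2v]
  have hvω : 1 < P.valuation (ε⁻¹ - ε'⁻¹) := by
    rw [hω, map_mul, h2ε, one_mul, map_inv₀]
    exact (one_lt_inv₀ (zero_lt_iff.2 ((Valuation.ne_zero_iff _).2 E.e0))).2 E.eps
  -- the forms
  have hX : ∀ (h c : M) (z : P) (t : P), (t : M) = h → (z : M) = c * fe f (K.pS G S h) 0 ∨ True →
      ∀ i, c * fe f (K.pS G S h) i = c * (∏ l, S (J l) ^ d l) *
        ((Y7_G K E.rm f G (fun j => ⟨_, hT j⟩) i).eval t : P) := by
    intro h c z t ht _ i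
    rw [Y7_eval, ht, mul_assoc]
    unfold Bk.pS
    rw [K.fe_dg_nm f hd G J S hJ0 h i]
  have hσp : ∀ l, σ (S (J l)) = S (J l) := fun l => E.s_S _
  have hDz : Dz (MvPolynomial.map (algebraMap k0 B) F0) E.rm σ (adjoin B (Set.range S))
      (Y7_G K E.rm f G (fun j => ⟨_, hT j⟩)) ⟨ε', hεP'⟩ ⟨ε, hεP⟩ (-(2 : M)⁻¹)
      (α * ∏ l, S (J l) ^ d l) (β * ∏ l, S (J l) ^ d l) x y w a :=
    { hom := h3.map _
      sig := E.sig
      s_s := E.s_s
      s_Q := Y7_fix σ S E.s_S
      s_d := hσε'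
      s_a := by
        rw [map_mul, E.s_a, map_prod]
        congr 1
        refine Finset.prod_congr rfl fun l _ => ?_
        rw [map_pow, hσp]
      co := fun i k => Y7_co K E.rm f G _ _ (fun j => div_mem
        (subset_adjoin B (Set.range S) ⟨j, rfl⟩)
        (subset_adjoin B (Set.range S) ⟨J (K.bl j), rfl⟩)) i k
      qQ := neg_mem (inv_mem (ofNat_mem _ 2))
      d0 := hε'0
      dl := E.eps'
      h1 := by
        have h1 : (ε' : M)⁻¹ + ε⁻¹ - 2 * (-(2 : M)⁻¹) = 0 := by
          rw [hinv]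
          have : (2 : M) ≠ 0 := two_ne_zero
          field_simp
          ring
        show P.valuation ((ε' : M)⁻¹ + ε⁻¹ - 2 * (-(2 : M)⁻¹)) < P.valuation (ε⁻¹ - ε'⁻¹)
        rw [h1, map_zero]
        exact zero_lt_one.trans hvω
      h2 := by
        show P.valuation (-(2 : M)⁻¹) ≤ P.valuation (ε⁻¹ - ε'⁻¹)
        rw [Valuation.map_neg, map_inv₀, h2v, inv_one]
        exact hvω.le
      x_eq := fun i => by
        rw [E.x_eq]
        exact hX ε' α 0 ⟨ε', hεP'⟩ rfl (Or.inr trivial) i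
      y_eq := fun i => by
        rw [E.y_eq]
        exact hX ε β 0 ⟨ε, hεP⟩ rfl (Or.inr trivial) i
      low := by
        obtain ⟨k, hk, i, hi⟩ := hl
        refine ⟨k, hk, i, ?_⟩
        rw [← Y7_map K E.rm f G (fun j => ⟨_, hT j⟩) i, Polynomial.coeff_map] at hi
        exact hi
      van := fun r t => by
        rw [MvPolynomial.aeval_map_algebraMap]
        have h1 : (fun i => r * (((Y7_G K E.rm f G (fun j => ⟨_, hT j⟩) i).eval t : P) : M)) =
            fun i => r * fe f (pt (K.bd G) (K.dg (t : M) (fun j => K.nm J S j))) i := by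
          funext i
          rw [Y7_eval]
        rw [h1]
        exact Y7_van F0 h3 f h0 _ r
      tr1 := ⟨D, by omega, Y7_tr1 D hm E J hJ0 hT hz⟩
      trj := ⟨m, le_rfl, Y7_trj E⟩
      ind := E.ind }
  exact hDz.out

end MP2619.Q6
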