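import Pool.Agent.Lib.MP_2619d0_ag.Q8.U3
import Pool.Agent.Lib.MP_2619d0_ag.Q8.V20
import Pool.Agent.Lib.MP_2619d0_ag.Y.Y0

/-!
# The residue field of the moving point
-/

set_option autoImplicit false

namespace MP2619.Q6

open scoped NNReal
open IntermediateField MP2619.R MP2619.N Pool.Agent.Lib.MP_2619d0_ag Pool.Agent.Lib.MP_2619d0_ag.T
  MP2619.Q5

variable {k0 B M L : Type} [Field k0] [Field B] [Field M] [Field L]
  [Algebra k0 B] [Algebra k0 M] [Algebra k0 L]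
  [Algebra B M] [Algebra B L] [IsScalarTower k0 B M] [IsScalarTower k0 B L] {m n N s : ℕ}
  {K : Bk n N s} {f : Fin (m + 2) → MvPolynomial (Fin N) k0} {G : Fin N → Fin N → B} {ε ε' : M}
  {S : Fin N → M} {α β : M} {σ : M ≃ₐ[B] M} {P : ValuationSubring M} {φ : P →+* L}
  {x y : Fin (m + 2) → P} {w : B} {a : Fin (m + 2)}

private theorem Y8_quot {k M L : Type} [Field k] [Field M] [Field L] [Algebra k M] [Algebra k L]
    {P : ValuationSubring M} {φ : P →+* L} (rm : RMap k P φ) (a b : P) (hb : φ b ≠ 0) :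
    ∃ c : P, (c : M) = (a : M) / (b : M) ∧ φ c = φ a / φ b := by
  have hb1 : P.valuation (b : M) = 1 :=
    le_antisymm (P.valuation_le_one b) (not_lt.1 fun h => hb ((rm.zero b).2 h))
  have hb0 : (b : M) ≠ 0 := by
    intro h
    rw [h, map_zero] at hb1
    exact zero_ne_one hb1
  have hm : (a : M) / (b : M) ∈ P := by
    rw [← ValuationSubring.valuation_le_one_iff, map_div₀, hb1, div_one]
    exact P.valuation_le_one a
  refine ⟨⟨(a : M) / (b : M), hm⟩, rfl, ?_⟩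
  rw [eq_div_iff hb, ← map_mul]
  congr 1
  apply Subtype.ext
  exact div_mul_cancel₀ (a : M) hb0

/-- At a place over a zero of the forms the residue field of `k0([q])`, `q = G diag((1 + ε')^wt) S`, contains the
ratios of `x̄` and of the zero, and it is smaller than `k0([q])`. -/
theorem esc_cnt (E : K.Esc8 f G ε ε' S α β σ P φ x y w a) (J : Fin s → Fin N)
    (hJ : ∀ i, K.bl (J i) = i) (hJ0 : ∀ i, S (J i) ≠ 0) (hT : ∀ j, K.nm J S j ∈ P)
    (hz : fe f (pt (K.bd G) (fun j => φ ⟨_, hT j⟩)) = 0) (dd : ℕ) (hdd : n ≤ dd + 1) :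
    ∃ K0 : IntermediateField k0 L, Algebra.trdeg k0 K0 ≤ dd ∧
      (∀ i j, K.bl i = K.bl j → pt (K.bd G) (fun j => φ ⟨_, hT j⟩) i /
        pt (K.bd G) (fun j => φ ⟨_, hT j⟩) j ∈ K0) ∧
      rat k0 (fun i => φ (x i)) ≤ K0 := by
  classical
  have rm0 : RMap k0 P φ := E.rm.restrict
  obtain ⟨d, hd⟩ := E.hom
  have hεP' : ε' ∈ P := (P.valuation_le_one_iff _).1 E.eps'.le
  have hφε' : φ ⟨ε', hεP'⟩ = 0 := (E.rm.zero _).2 E.eps'
  choose q hq1 hq2 using fun i => pt_res E.rm (K.bd G)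
    (fun j => (1 + (⟨ε', hεP'⟩ : P)) ^ (K.wt j) * (⟨_, hT j⟩ : P)) i
  have hqφ : ∀ i, φ (q i) = pt (K.bd G) (fun j => φ ⟨_, hT j⟩) i := by
    intro i
    rw [hq2 i]
    congr 1
    funext j
    rw [map_mul, map_pow, map_add, map_one, hφε', add_zero, one_pow, one_mul]
  have hqM : ∀ i, (q i : M) = pt (K.bd G) (K.dg ε' (K.nm J S)) i := hq1
  -- the moving point
  set p' : Fin N → M := pt (K.bd G) (K.dg ε' S) with hp'
  have hpq : ∀ i, p' i = S (J (K.bl i)) * (q i : M) := by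
    intro i
    rw [hp', K.pt_dg_nm G J S hJ0, hqM]
  have hτ0 : K.Nz (fun j => φ ⟨_, hT j⟩ : Fin N → L) := by
    intro i
    refine ⟨J i, hJ i, ?_⟩
    have h2 : (⟨K.nm J S (J i), hT (J i)⟩ : P) = 1 :=
      Subtype.ext (K.nm_J J hJ S hJ0 i)
    show φ ⟨K.nm J S (J i), hT (J i)⟩ ≠ 0
    rw [h2, map_one]
    exact one_ne_zero
  have hP0 : K.Nz (pt (K.bd G) (fun j => φ ⟨_, hT j⟩)) := pt_neB K G E.indG _ hτ0
  choose l hbl hl using hP0
  have hql : ∀ i, φ (q (l i)) ≠ 0 := fun i => by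
    rw [hqφ]
    exact hl i
  have hql0 : ∀ i, (q (l i) : M) ≠ 0 := by
    intro i h
    apply hql i
    have : q (l i) = 0 := Subtype.ext h
    rw [this, map_zero]
  -- the values
  have hX : ∀ i, (x i : M) = α * (∏ l, S (J l) ^ d l) * fe f (fun j => (q j : M)) i := by
    intro i
    have h1 : (fun j => (q j : M)) = pt (K.bd G) (K.dg ε' (K.nm J S)) := funext hqM
    rw [E.x_eq, mul_assoc, h1]
    unfold Bk.pS
    rw [K.fe_dg_nm f hd G J S hJ0 ε' i]
  obtain ⟨i0, hi0⟩ : ∃ i, fe f (fun j => (q j : M)) i ≠ 0 := by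
    by_contra hcon
    push Not at hcon
    obtain ⟨θ, hθx, -, -, -⟩ := esc_theta8 E J hT
    have hx0 : ∀ i, x i = 0 := fun i => Subtype.ext (by
      rw [hX, hcon, mul_zero]
      rfl)
    have hφx : ∀ i, φ (x i) = 0 := fun i => by rw [hx0 i, map_zero]
    have hφy : ∀ i, φ (y i) = 0 := fun i => by rw [← hθx, hφx, map_zero]
    apply E.ind.ne_zero 0
    show algebraMap B L _ * φ (x 0) + φ (y 0) = 0
    rw [hφx, hφy, mul_zero, add_zero]
  -- the normalised point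
  have hq' : ∀ j, K.nm l p' j = (q (l (K.bl j)) : M)⁻¹ * (q j : M) := by
    intro j
    unfold Bk.nm
    rw [hpq, hpq, hbl, mul_div_mul_left _ _ (hJ0 _), div_eq_inv_mul]
  have hf1 : fe f (K.nm l p') i0 = (∏ i, (q (l i) : M)⁻¹ ^ d i) *
      fe f (fun j => (q j : M)) i0 := by
    have h1 : K.nm l p' = fun j => (q (l (K.bl j)) : M)⁻¹ * (q j : M) := funext hq'
    rw [h1]
    exact K.fe_bsmul f hd (fun i => (q (l i) : M)⁻¹) _ i0
  have hunit : ∀ i, P.valuation (q (l i) : M) = 1 := fun i =>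
    le_antisymm (P.valuation_le_one _) (not_lt.1 fun h => hql i ((rm0.zero _).2 h))
  have hval : P.valuation (fe f (K.nm l p') i0) < 1 := by
    rw [hf1, map_mul, map_prod]
    have h1 : ∏ i, P.valuation ((q (l i) : M)⁻¹ ^ d i) = 1 := by
      refine Finset.prod_eq_one fun i _ => ?_
      rw [map_pow, map_inv₀, hunit, inv_one, one_pow]
    rw [h1, one_mul]
    obtain ⟨b, hb1, hb2⟩ := fe_res f rm0 q i0
    have hb3 : φ b = 0 := by
      rw [hb2]
      have h2 : (fun j => φ (q j)) = pt (K.bd G) (fun j => φ ⟨_, hT j⟩) := funext hqφ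
      rw [h2, hz]
      rfl
    rw [← hb1]
    exact (rm0.zero b).1 hb3
  have hne : fe f (K.nm l p') i0 ≠ 0 := by
    rw [hf1]
    exact mul_ne_zero (Finset.prod_ne_zero_iff.2 fun i _ => pow_ne_zero _ (inv_ne_zero (hql0 i))) hi0
  have hmem : fe f (K.nm l p') i0 ∈ K.rt k0 p' :=
    fe_mem f (K.rt k0 p') _ (fun j => K.nm_mem_rt l hbl p' j) i0
  have htr : Algebra.trdeg k0 (K.rt k0 p') ≤ (dd + 1 : ℕ) := by
    refine (K.trdeg_rt_le p').trans ?_
    exact_mod_cast hdd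
  refine ⟨resI rm0 (K.rt k0 p'), trdeg_resI_lt rm0 (K.rt k0 p') dd htr _ hmem hne hval, ?_, ?_⟩
  · intro i j hij
    by_cases hj : pt (K.bd G) (fun j => φ ⟨_, hT j⟩) j = 0
    · rw [hj, div_zero]
      exact zero_mem _
    · rw [← hqφ j] at hj
      obtain ⟨c, hc1, hc2⟩ := Y8_quot rm0 (q i) (q j) hj
      rw [mem_resI]
      refine ⟨c, ?_, ?_⟩
      · have h1 : (c : M) = p' i / p' j := by
          rw [hc1, hpq i, hpq j, hij, mul_div_mul_left _ _ (hJ0 _)]
        rw [h1]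
        exact K.div_mem_rt _ _ _ hij
      · rw [hc2, hqφ i, hqφ j]
  · refine rat_resI rm0 x (K.rt k0 p') ?_
    have h3 : (fun i => (x i : M)) = fun i => α * fe f p' i := funext E.x_eq
    rw [h3]
    exact (rat_smul_le α (fe f p')).trans (K.rat_fe_le f hd p')

end MP2619.Q6
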