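import Pool.Agent.Lib.MP_2619d0_ag.Y.Y0

/-!
Row y-3: a matrix for which the quadratic part is not zero in the direction of the torus
-/

set_option autoImplicit false

namespace MP2619.Q6

open scoped NNReal
open IntermediateField MP2619.R MP2619.N Pool.Agent.Lib.MP_2619d0_ag Pool.Agent.Lib.MP_2619d0_ag.T
  MP2619.Q5

private theorem Y3_sum {n N s : ℕ} (K : Bk n N s) {κ : Type} [Field κ] (l : Fin s → Fin N)
    (hl : ∀ i, K.bl (l i) = i) (A : Fin N → κ) (g : Fin N → Fin N → κ)
    (hg : ∀ a j, g a j = if j = l (K.bl j) then A a else if a = j then 1 else 0)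
    (u : Fin N → κ) (a : Fin N) :
    ∑ j, K.bd g a j * u j = A a * u (l (K.bl a)) + (if a = l (K.bl a) then 0 else u a) := by
  have h1 : ∀ j, K.bd g a j * u j = (if j = l (K.bl a) then A a * u (l (K.bl a)) else 0) +
      (if j = a then (if a = l (K.bl a) then 0 else u a) else 0) := by
    intro j
    unfold Bk.bd
    rw [hg]
    by_cases h2 : j = l (K.bl a)
    · have h3 : K.bl j = K.bl a := by rw [h2, hl]
      rw [if_pos h3.symm, if_pos h2, h3, if_pos h2]
      by_cases h4 : j = a
      · rw [if_pos h4, if_pos (h4 ▸ h2), add_zero, ← h2]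
      · rw [if_neg h4, add_zero, ← h2]
    · rw [if_neg h2, zero_add]
      by_cases h3 : K.bl a = K.bl j
      · rw [if_pos h3, ← h3, if_neg h2]
        by_cases h4 : j = a
        · rw [if_pos h4.symm, if_pos h4, one_mul, if_neg (h4 ▸ h2), h4]
        · rw [if_neg (fun h => h4 h.symm), if_neg h4, zero_mul]
      · rw [if_neg h3, zero_mul]
        have h4 : j ≠ a := fun h => h3 (by rw [h])
        rw [if_neg h4]
  rw [Finset.sum_congr rfl (fun j _ => h1 j), Finset.sum_add_distrib, Finset.sum_ite_eq', Finset.sum_ite_eq',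
    if_pos (Finset.mem_univ _), if_pos (Finset.mem_univ _)]

/-- Choose `l i` in the block `i` with `P0 (l i) ≠ 0`. For `τ` with `τ (l i) = 1` let `g` have the columns `e_j` (`j ≠ l (K.bl j)`) and `g_{a, l i} = P0 a - (if a = l i then 0 else τ a)` for `a` in
the block `i`; zero outside the blocks. Then `∑ j, g a j * τ j = P0 a`, and `∑ j, g a j * (wt j * τ j) = wt (l i) * P0 a + (wt a - wt (l i)) * τ a` for `a` in the block `i`, `a ≠ l i`, and
`= wt (l i) * P0 a` for `a = l i`. So by `hr` (with `c i = wt (l i)`) the value in question is `aeval v Q`, `v a = (wt a - wt (l i)) * τ a` for `a ≠ l i`, `v (l i) = 0`, and these `v` are all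
vectors with `v (l i) = 0` (`K.inj`: the weights in a block are different; `CharZero`). There is a vector `v0` with `aeval v0 Q ≠ 0` (`MvPolynomial.funext`, `κ` is infinite), and
`v = v0 - (v0 (l i) / P0 (l i)) P0` has the same value by `hr`. Determinant: `(Matrix.of (K.bd g)) u = 0` implies `u = 0`: the coordinate `l i` gives `P0 (l i) * u (l i) = 0`, then the others
(`Matrix.exists_mulVec_eq_zero_iff`). -/
theorem exists_g {n N s : ℕ} (K : Bk n N s) {κ : Type} [Field κ] [CharZero κ] (P0 : Fin N → κ)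
    (hP : K.Nz P0) (Q : MvPolynomial (Fin N) κ) (hQ : Q ≠ 0)
    (hr : ∀ (v : Fin N → κ) (c : Fin s → κ),
      MvPolynomial.aeval (fun a => v a + c (K.bl a) * P0 a) Q = MvPolynomial.aeval v Q) :
    ∃ (g : Fin N → Fin N → κ) (τ : Fin N → κ), (Matrix.of (K.bd g)).det ≠ 0 ∧
      (∀ a, ∑ j, K.bd g a j * τ j = P0 a) ∧
      MvPolynomial.aeval (fun a => ∑ j, K.bd g a j * ((K.wt j : κ) * τ j)) Q ≠ 0 := by
  classical
  choose l hl hl0 using hP
  obtain ⟨v0, hv0⟩ : ∃ v0 : Fin N → κ, MvPolynomial.aeval v0 Q ≠ 0 := by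
    by_contra hcon
    push Not at hcon
    apply hQ
    apply MvPolynomial.funext
    intro x
    rw [map_zero]
    exact hcon x
  obtain ⟨v1, hv1⟩ : ∃ v1 : Fin N → κ, v1 = fun a => v0 a + (-(v0 (l (K.bl a)) / P0 (l (K.bl a)))) * P0 a :=
    ⟨_, rfl⟩
  have hv1l : ∀ i, v1 (l i) = 0 := by
    intro i
    rw [hv1]
    simp only [hl]
    rw [neg_mul, div_mul_cancel₀ _ (hl0 i), add_neg_cancel]
  have hv1Q : MvPolynomial.aeval v1 Q ≠ 0 := by
    rw [hv1, hr v0 (fun i => -(v0 (l i) / P0 (l i)))]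
    exact hv0
  obtain ⟨τ, hτ⟩ : ∃ τ : Fin N → κ, τ = fun a => if a = l (K.bl a) then 1 else
      v1 a / ((K.wt a : κ) - (K.wt (l (K.bl a)) : κ)) := ⟨_, rfl⟩
  have hτl : ∀ i, τ (l i) = 1 := by
    intro i
    rw [hτ]
    simp only [hl, if_true]
  have hτa : ∀ a, a ≠ l (K.bl a) → ((K.wt a : κ) - (K.wt (l (K.bl a)) : κ)) * τ a = v1 a := by
    intro a ha
    rw [hτ]
    simp only [if_neg ha]
    have h1 : ((K.wt a : κ) - (K.wt (l (K.bl a)) : κ)) ≠ 0 := by
      intro h0
      have h2 : K.wt a = K.wt (l (K.bl a)) := by exact_mod_cast sub_eq_zero.1 h0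
      exact ha (K.inj _ _ (by rw [hl]) h2)
    rw [mul_div_cancel₀ _ h1]
  obtain ⟨A, hA⟩ : ∃ A : Fin N → κ, A = fun a => P0 a - (if a = l (K.bl a) then 0 else τ a) := ⟨_, rfl⟩
  obtain ⟨g, hg⟩ : ∃ g : Fin N → Fin N → κ,
      ∀ a j, g a j = if j = l (K.bl j) then A a else if a = j then 1 else 0 := ⟨fun a j => _, fun a j => rfl⟩
  have hsum := Y3_sum K l hl A g hg
  refine ⟨g, τ, ?_, ?_, ?_⟩
  · intro hdet
    obtain ⟨u, hu0, hu⟩ := Matrix.exists_mulVec_eq_zero_iff.2 hdet
    apply hu0
    have h1 : ∀ a, A a * u (l (K.bl a)) + (if a = l (K.bl a) then 0 else u a) = 0 := by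
      intro a
      rw [← hsum u a]
      have := congrFun hu a
      exact this
    have h2 : ∀ i, u (l i) = 0 := by
      intro i
      have h3 := h1 (l i)
      rw [hl, if_pos rfl, add_zero, hA] at h3
      simp only [hl, if_true, sub_zero] at h3
      rcases mul_eq_zero.1 h3 with h4 | h4
      · exact absurd h4 (hl0 i)
      · exact h4
    funext a
    have h3 := h1 a
    rw [h2, mul_zero, zero_add] at h3
    by_cases ha : a = l (K.bl a)
    · rw [ha]
      exact h2 _
    · rw [if_neg ha] at h3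
      exact h3
  · intro a
    rw [hsum τ a, hτl, mul_one, hA]
    simp only
    ring
  · have h1 : (fun a => ∑ j, K.bd g a j * ((K.wt j : κ) * τ j)) =
        fun a => v1 a + (fun i => (K.wt (l i) : κ)) (K.bl a) * P0 a := by
      funext a
      rw [hsum (fun j => (K.wt j : κ) * τ j) a]
      simp only [hτl, mul_one]
      rw [hA]
      by_cases ha : a = l (K.bl a)
      · have h2 : v1 a = 0 := by rw [ha]; exact hv1l _
        simp only [if_pos ha, h2]
        ring
      · simp only [if_neg ha]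
        rw [← hτa a ha]
        ring
    rw [h1]
    have h2 := hr v1 (fun i => (K.wt (l i) : κ))
    rw [← h2] at hv1Q
    exact hv1Q

end MP2619.Q6
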