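import Pool.Agent.Lib.MP_2619d0_ag.Y.Y0

/-!
Row y-4: the count
-/

set_option autoImplicit false

namespace MP2619.Q6

open scoped NNReal
open IntermediateField MP2619.R MP2619.N Pool.Agent.Lib.MP_2619d0_ag Pool.Agent.Lib.MP_2619d0_ag.T
  MP2619.Q5

/-- A field generated by a set is algebraic over the algebra generated by the set. -/
private theorem Y4_alg {K N : Type} [Field K] [Field N] [Algebra K N] (S : Set N) :
    Algebra.IsAlgebraic (Algebra.adjoin K ((fun x : adjoin K S => (x : N)) ⁻¹' S)) (adjoin K S) := by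
  have key : ∀ r ∈ Algebra.adjoin K S, ∃ r' ∈ Algebra.adjoin K
      ((fun x : adjoin K S => (x : N)) ⁻¹' S), (r' : N) = r := by
    intro r hr
    have h1 : (Algebra.adjoin K ((fun x : adjoin K S => (x : N)) ⁻¹' S)).map (adjoin K S).val =
        Algebra.adjoin K S := by
      rw [AlgHom.map_adjoin]
      congr 1
      ext y
      constructor
      · rintro ⟨x, hx, rfl⟩
        exact hx
      · intro hy
        exact ⟨⟨y, subset_adjoin K S hy⟩, hy, rfl⟩
    rw [← h1] at hr
    obtain ⟨r', hr', h2⟩ := hr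
    exact ⟨r', hr', h2⟩
  refine ⟨fun x => ?_⟩
  obtain ⟨r, hr, s, hs, hx⟩ := mem_adjoin_iff_div.1 x.2
  obtain ⟨r', hr', h1⟩ := key r hr
  obtain ⟨s', hs', h2⟩ := key s hs
  have h3 : x = r' * s'⁻¹ := by
    apply Subtype.ext
    push_cast
    rw [hx, h1, h2, div_eq_mul_inv]
  rw [h3]
  have h4 : IsAlgebraic (Algebra.adjoin K ((fun x : adjoin K S => (x : N)) ⁻¹' S)) r' :=
    isAlgebraic_algebraMap (⟨r', hr'⟩ : Algebra.adjoin K ((fun x : adjoin K S => (x : N)) ⁻¹' S))
  have h5 : IsAlgebraic (Algebra.adjoin K ((fun x : adjoin K S => (x : N)) ⁻¹' S)) s' :=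
    isAlgebraic_algebraMap (⟨s', hs'⟩ : Algebra.adjoin K ((fun x : adjoin K S => (x : N)) ⁻¹' S))
  exact h4.mul h5.inv

private theorem Y4_trdeg {K N : Type} [Field K] [Field N] [Algebra K N] {ι : Type} [Fintype ι]
    (s : ι → N) : Algebra.trdeg K (adjoin K (Set.range s)) ≤ (Fintype.card ι : ℕ) := by
  have := Y4_alg (K := K) (Set.range s)
  refine (Algebra.IsAlgebraic.trdeg_le_cardinalMk (R := K) (A := adjoin K (Set.range s))
    ((fun x : adjoin K (Set.range s) => (x : N)) ⁻¹' (Set.range s))).trans ?_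
  have h1 : Cardinal.mk ↑((fun x : adjoin K (Set.range s) => (x : N)) ⁻¹' (Set.range s)) ≤
      Cardinal.mk (Set.range s) :=
    Cardinal.mk_preimage_of_injective _ _ Subtype.val_injective
  refine h1.trans (Cardinal.mk_range_le.trans ?_)
  rw [Cardinal.mk_fintype]

private theorem Y4_add {k K L : Type} [Field k] [Field K] [Field L] [Algebra k K] [Algebra K L]
    [Algebra k L] [IsScalarTower k K L] :
    Algebra.trdeg k K + Algebra.trdeg K L = Algebra.trdeg k L :=
  trdeg_add_eq k K

private theorem Y4_basis {k0 B N : Type} [Field k0] [Field B] [Field N] [Algebra k0 B]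
    [Algebra B N] [Algebra k0 N] (K0 : IntermediateField k0 N) (m : ℕ)
    (hn : ¬ Algebra.trdeg B (adjoin B (K0 : Set N)) ≤ m) :
    ∃ b : Fin (m + 1) → K0, AlgebraicIndependent B (fun i => (b i : N)) := by
  have := Y4_alg (K := B) (K0 : Set N)
  obtain ⟨u, hu, hb⟩ := exists_isTranscendenceBasis_subset (R := B)
    (A := adjoin B (K0 : Set N))
    ((fun x : adjoin B (K0 : Set N) => (x : N)) ⁻¹' (K0 : Set N))
  have h1 := hb.cardinalMk_eq_trdeg
  have h2 : ((m + 1 : ℕ) : Cardinal) ≤ Cardinal.mk u := by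
    rw [h1]
    rw [not_le] at hn
    have := Order.succ_le_of_lt hn
    rw [Cardinal.succ_natCast] at this
    exact_mod_cast this
  have h3 : Cardinal.mk (Fin (m + 1)) ≤ Cardinal.mk u := by
    simpa using h2
  obtain ⟨e⟩ := h3
  refine ⟨fun i => ⟨(e i).1.1, hu (e i).2⟩, ?_⟩
  have h4 := (hb.1.comp e e.injective).map' (f := (adjoin B (K0 : Set N)).val) Subtype.val_injective
  exact h4

variable {k0 B L : Type} [Field k0] [Field B] [Field L] [Algebra k0 B] [Algebra B L]
  [Algebra k0 L] [IsScalarTower k0 B L]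

/-- The count with `r` elements -/
private theorem Y4_count {N : ℕ} (K0 : IntermediateField k0 L) (dd : ℕ)
    (h : Algebra.trdeg k0 K0 ≤ dd) (G : Fin N → Fin N → B)
    (hG : AlgebraicIndependent k0 (fun q : Fin N × Fin N => G q.1 q.2))
    (R : MvPolynomial (Fin N × Fin N) K0) (hR : R ≠ 0)
    (h0 : MvPolynomial.aeval (fun q : Fin N × Fin N => algebraMap B L (G q.1 q.2)) R = 0)
    (r : ℕ) (b : Fin r → K0)
    (hb : AlgebraicIndependent B (fun i => (b i : L))) : r + 1 ≤ dd := by
  classical
  set f : Fin N × Fin N → L := fun q => algebraMap B L (G q.1 q.2) with hf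
  set E := adjoin K0 (Set.range f) with hE
  have hfE : ∀ x, f x ∈ E := fun x => subset_adjoin K0 _ ⟨x, rfl⟩
  have hK : ∀ x : K0, (x : L) ∈ E := fun x => E.algebraMap_mem x
  have hu := hG.sumElim_comp hb
  set u : Fin r ⊕ (Fin N × Fin N) → E :=
    Sum.elim (fun i => ⟨(b i : L), hK (b i)⟩) (fun q => ⟨f q, hfE q⟩) with hudef
  have hu' : AlgebraicIndependent k0 u := by
    refine AlgebraicIndependent.of_comp (E.val.restrictScalars k0) ?_
    have h1 : (⇑(E.val.restrictScalars k0) ∘ u) =
        Sum.elim (fun i => (b i : L)) (⇑(algebraMap B L) ∘ fun q : Fin N × Fin N => G q.1 q.2) := by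
      funext x
      rcases x with x | x <;> rfl
    rw [h1]
    exact hu
  have h28 := hu'.cardinalMk_le_trdeg
  have hadd := Y4_add (k := k0) (K := K0) (L := E)
  have h3 : Cardinal.mk (Fin r ⊕ (Fin N × Fin N)) = ((r + N * N : ℕ) : Cardinal) := by
    rw [Cardinal.mk_fintype]
    simp only [Fintype.card_sum, Fintype.card_prod, Fintype.card_fin]
  rw [h3, ← hadd] at h28
  by_contra hc
  have hdr : dd ≤ r := by omega
  rcases le_or_gt ((N * N : ℕ) : Cardinal) (Algebra.trdeg K0 E) with ht | ht
  · let g : Fin N × Fin N → E := fun q => ⟨f q, hfE q⟩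
    have hpre : (fun x : adjoin K0 (Set.range f) => (x : L)) ⁻¹' (Set.range f) = Set.range g := by
      ext x
      constructor
      · rintro ⟨q, hq⟩
        exact ⟨q, Subtype.ext hq⟩
      · rintro ⟨q, rfl⟩
        exact ⟨q, rfl⟩
    have halg : Algebra.IsAlgebraic (Algebra.adjoin K0 (Set.range g)) E := by
      have h5 := Y4_alg (K := K0) (Set.range f)
      rw [hpre] at h5
      exact h5
    have hfs : FaithfulSMul K0 E :=
      (faithfulSMul_iff_algebraMap_injective K0 E).2 (algebraMap K0 E).injective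
    have hbas := Algebra.IsAlgebraic.isTranscendenceBasis_of_le_trdeg_of_finite K0 g
      (by
        rw [Cardinal.mk_fintype]
        simpa only [Fintype.card_prod, Fintype.card_fin] using ht)
    have hind : AlgebraicIndependent K0 f := hbas.1.map' (f := E.val) Subtype.val_injective
    exact hR (hind.eq_zero_of_aeval_eq_zero R h0)
  · obtain ⟨t, ht'⟩ := Cardinal.lt_aleph0.1 (ht.trans Cardinal.natCast_lt_aleph0)
    rw [ht'] at ht h28
    have h6 : t < N * N := by exact_mod_cast ht
    have h7 : ((r + N * N : ℕ) : Cardinal) ≤ ((dd + t : ℕ) : Cardinal) := by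
      rw [Nat.cast_add dd t]
      exact h28.trans (add_le_add h le_rfl)
    have h8 : r + N * N ≤ dd + t := by exact_mod_cast h7
    omega

/-- Copy `U1_alg`, `U1_basis`, `U1_count` and `GPC` from Q8/U1.lean. If the transcendence degree of `adjoin B K0` over `B` is not `≤ dd - 1` (or if `dd = 0`), there are `dd` elements `b i` of `K0`
algebraically independent over `B` (`U1_basis`; for `dd = 0` take none), so `b` and the `N * N` entries of `G` are algebraically independent over `k0` (`AlgebraicIndependent.sumElim_comp`). They lie in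
`adjoin K0 (range of the entries of G)`, which has transcendence degree `≤ dd + (N * N - 1)` over `k0`, because the entries are not algebraically independent over `K0` (`R ≠ 0`, `h0`). -/
theorem count1 {N : ℕ} (K0 : IntermediateField k0 L) (dd : ℕ) (h : Algebra.trdeg k0 K0 ≤ dd)
    (G : Fin N → Fin N → B)
    (hG : AlgebraicIndependent k0 (fun q : Fin N × Fin N => G q.1 q.2))
    (R : MvPolynomial (Fin N × Fin N) K0) (hR : R ≠ 0)
    (h0 : MvPolynomial.aeval (fun q : Fin N × Fin N => algebraMap B L (G q.1 q.2)) R = 0) :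
    ∃ δ : ℕ, Algebra.trdeg B (adjoin B (K0 : Set L)) ≤ δ ∧ δ + 1 ≤ dd := by
  have h1 := Y4_count K0 dd h G hG R hR h0 0 Fin.elim0
    ((algebraicIndependent_empty_type_iff).2 (algebraMap B L).injective)
  refine ⟨dd - 1, ?_, by omega⟩
  by_contra hn
  obtain ⟨b, hb⟩ := Y4_basis K0 (dd - 1) hn
  have h2 := Y4_count K0 dd h G hG R hR h0 _ b hb
  omega

end MP2619.Q6
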