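import Pool.Agent.Lib.MP_2619d0_ag.Y.Y2
import Pool.Agent.Lib.MP_2619d0_ag.Y.Y3
import Pool.Agent.Lib.MP_2619d0_ag.Y.Y4

/-!
Row y-5: double points, the coordinates in the small field
-/

set_option autoImplicit false

namespace MP2619.Q6

open scoped NNReal
open IntermediateField MP2619.R MP2619.N Pool.Agent.Lib.MP_2619d0_ag Pool.Agent.Lib.MP_2619d0_ag.T
  MP2619.Q5

/-- the value of a form of degree two at a multiple of a vector -/
private theorem Y5_hom {N : ℕ} {κ S : Type} [Field κ] [CommRing S] [Algebra κ S]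
    (Q : MvPolynomial (Fin N) κ) (hQ : Q.IsHomogeneous 2) (c : S) (u : Fin N → S) :
    MvPolynomial.aeval (fun a => c * u a) Q = c ^ 2 * MvPolynomial.aeval u Q := by
  rw [MvPolynomial.aeval_def, MvPolynomial.aeval_def, MvPolynomial.eval₂_eq', MvPolynomial.eval₂_eq',
    Finset.mul_sum]
  refine Finset.sum_congr rfl fun d hd => ?_
  have h1 : d.degree = 2 := by
    by_contra h
    exact (MvPolynomial.mem_support_iff.1 hd) (hQ.coeff_eq_zero h)
  have h2 : ∏ i, (c * u i) ^ d i = c ^ 2 * ∏ i, u i ^ d i := by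
    rw [← h1, Finsupp.degree_eq_sum, ← Finset.prod_pow_eq_pow_sum, ← Finset.prod_mul_distrib]
    exact Finset.prod_congr rfl fun i _ => mul_pow _ _ _
  rw [h2]
  ring

/-- the generic block diagonal matrix -/
private noncomputable def Y5_Z {n N s : ℕ} (K : Bk n N s) (κ : Type) [Field κ] :
    Matrix (Fin N) (Fin N) (MvPolynomial (Fin N × Fin N) κ) :=
  Matrix.of (K.bd (fun a j => MvPolynomial.X (a, j)))

/-- the generic vector -/
private noncomputable def Y5_w {n N s : ℕ} (K : Bk n N s) {κ : Type} [Field κ] (b : Fin N → κ) :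
    Fin N → MvPolynomial (Fin N × Fin N) κ :=
  (Y5_Z K κ * Matrix.diagonal (fun j => (K.wt j : MvPolynomial (Fin N × Fin N) κ)) *
    (Y5_Z K κ).adjugate).mulVec (fun a => MvPolynomial.C (b a))

/-- the value of the generic vector at a matrix `H` with `H τ = b` -/
private theorem Y5_val {n N s : ℕ} (K : Bk n N s) {κ S : Type} [Field κ] [CommRing S] [Algebra κ S]
    (b : Fin N → κ) (H : Fin N → Fin N → S) (τ : Fin N → S)
    (hH : ∀ a, ∑ j, K.bd H a j * τ j = algebraMap κ S (b a)) (a : Fin N) :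
    MvPolynomial.aeval (fun q : Fin N × Fin N => H q.1 q.2) (Y5_w K b a) =
      (Matrix.of (K.bd H)).det * ∑ j, K.bd H a j * ((K.wt j : S) * τ j) := by
  set ev : MvPolynomial (Fin N × Fin N) κ →+* S :=
    (MvPolynomial.aeval (fun q : Fin N × Fin N => H q.1 q.2) :
      MvPolynomial (Fin N × Fin N) κ →ₐ[κ] S).toRingHom with hev
  have hevX : ∀ q, ev (MvPolynomial.X q) = H q.1 q.2 := fun q => MvPolynomial.aeval_X _ q
  have hevC : ∀ c, ev (MvPolynomial.C c) = algebraMap κ S c := fun c => MvPolynomial.aeval_C _ c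
  have h0 : ev (Y5_w K b a) = MvPolynomial.aeval (fun q : Fin N × Fin N => H q.1 q.2) (Y5_w K b a) := rfl
  rw [← h0]
  set M : Matrix (Fin N) (Fin N) S := Matrix.of (K.bd H) with hM
  have hZ : ev.mapMatrix (Y5_Z K κ) = M := by
    ext i j
    simp only [Y5_Z, hM, RingHom.mapMatrix_apply, Matrix.map_apply, Matrix.of_apply, Bk.bd]
    split_ifs
    · exact hevX (i, j)
    · exact map_zero ev
  have hD : ev.mapMatrix (Matrix.diagonal (fun j => (K.wt j : MvPolynomial (Fin N × Fin N) κ))) =
      Matrix.diagonal (fun j => (K.wt j : S)) := by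
    rw [RingHom.mapMatrix_apply, Matrix.diagonal_map (map_zero ev)]
    congr 1
    funext j
    exact map_natCast ev _
  have hb : (ev ∘ fun a => MvPolynomial.C (b a)) = M.mulVec τ := by
    funext i
    change ev (MvPolynomial.C (b i)) = _
    rw [hevC, ← hH i]
    rfl
  unfold Y5_w
  rw [RingHom.map_mulVec, ← RingHom.mapMatrix_apply, map_mul, map_mul, RingHom.map_adjugate, hZ, hD, hb,
    Matrix.mulVec_mulVec, Matrix.mul_assoc, Matrix.adjugate_mul, Matrix.mul_smul, Matrix.mul_one,
    Matrix.smul_mulVec]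
  rw [Pi.smul_apply, smul_eq_mul]
  congr 1
  change ∑ j, (M * Matrix.diagonal (fun j => (K.wt j : S))) a j * τ j = _
  refine Finset.sum_congr rfl fun j _ => ?_
  rw [Matrix.mul_diagonal]
  simp only [hM, Matrix.of_apply]
  ring

variable {k0 B L : Type} [Field k0] [Field B] [Field L] [Algebra k0 B] [Algebra B L]
  [Algebra k0 L] [IsScalarTower k0 B L]

/-- `h2`, `h1`: some `f i` has a coefficient of order exactly two, so `Q = qp b (f i) ≠ 0`. `rad2`, `exists_g` over `κ = K0`: `g`, `τ'`. Over `R0 = MvPolynomial (Fin N × Fin N) K0` let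
`Z = Matrix.of (K.bd (fun a j => X (a, j)))`, `w = Z * diagonal wt * Z.adjugate` applied to `b`, `R = aeval w Q`. At the matrix `g` the vector `w` becomes `det (bd g)` times
`∑ j, bd g a j * (wt j * τ' j)` (`adjugate * (bd g) = det`), so `R` has the value `det ^ 2 * (...) ≠ 0` and `R ≠ 0`. At `G` it becomes `det (bd G)` times `∑ j, bd G a j * wt j * τ j`, and
`aeval (this) (qp ...) = (K.Lp f G τ i).coeff 2 = 0` by `tay2` for `y a = ∑ j, C (algebraMap B L (K.bd G a j) * τ j) * (1 + X) ^ (K.wt j)` (`hl`). Hence `count1`.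
(`tay` over `K0` and over `L`: `MvPolynomial.map (algebraMap K0 L)`; `Q` is homogeneous of degree two.) -/
theorem low_count0 {n N s r : ℕ} [CharZero k0] (K : Bk n N s)
    (f : Fin r → MvPolynomial (Fin N) k0) {d : Fin s → ℕ} (hd : ∀ i, K.MH (f i) d)
    (G : Fin N → Fin N → B)
    (hG : AlgebraicIndependent k0 (fun q : Fin N × Fin N => G q.1 q.2)) (τ : Fin N → L)
    (K0 : IntermediateField k0 L) (dd : ℕ) (h : Algebra.trdeg k0 K0 ≤ dd) (b : Fin N → K0)
    (hb : ∀ a, pt (K.bd G) τ a = (b a : L)) (hnz : K.Nz b)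
    (h1 : ¬ TayNe 1 f b) (h2 : TayNe 2 f b) (hl : ¬ K.Low2 f G τ) :
    ∃ δ : ℕ, Algebra.trdeg B (adjoin B (K0 : Set L)) ≤ δ ∧ δ + 1 ≤ dd := by
  have : CharZero K0 := charZero_of_injective_algebraMap (algebraMap k0 K0).injective
  obtain ⟨i, e, he, hne⟩ := h2
  have h1' : ∀ (i : Fin r) (d : Fin N →₀ ℕ), d.degree ≤ 1 →
      MvPolynomial.coeff d (tay b (f i)) = 0 := by
    intro i d hd1
    by_contra hc
    exact h1 ⟨i, d, hd1, hc⟩
  have he2 : e.degree = 2 := by
    rcases Nat.lt_or_ge e.degree 2 with hlt | hge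
    · exact absurd (h1' i e (by omega)) hne
    · omega
  set Q : MvPolynomial (Fin N) K0 := qp b (f i) with hQdef
  have hQ : Q ≠ 0 := by
    intro h0
    have h3 : MvPolynomial.coeff e Q = 0 := by rw [h0, MvPolynomial.coeff_zero]
    rw [hQdef, qp, MvPolynomial.coeff_homogeneousComponent, if_pos he2] at h3
    exact hne h3
  have hQ2 : Q.IsHomogeneous 2 := MvPolynomial.homogeneousComponent_isHomogeneous _ _
  obtain ⟨g, τ', hdet, hgb, hval⟩ := exists_g K b hnz Q hQ
    (fun v c => rad2 K (f i) (hd i) b (h1' i) v c)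
  set R : MvPolynomial (Fin N × Fin N) K0 := MvPolynomial.aeval (Y5_w K b) Q with hRdef
  have hev : ∀ {S : Type} [CommRing S] [Algebra K0 S] (H : Fin N → Fin N → S) (t : Fin N → S),
      (∀ a, ∑ j, K.bd H a j * t j = algebraMap K0 S (b a)) →
      MvPolynomial.aeval (fun q : Fin N × Fin N => H q.1 q.2) R =
        (Matrix.of (K.bd H)).det ^ 2 *
          MvPolynomial.aeval (fun a => ∑ j, K.bd H a j * ((K.wt j : S) * t j)) Q := by
    intro S _ _ H t hH
    rw [hRdef, MvPolynomial.comp_aeval_apply]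
    rw [show (fun a => MvPolynomial.aeval (fun q : Fin N × Fin N => H q.1 q.2) (Y5_w K b a)) =
      fun a => (Matrix.of (K.bd H)).det * ∑ j, K.bd H a j * ((K.wt j : S) * t j) from
      funext fun a => Y5_val K b H t hH a]
    exact Y5_hom Q hQ2 _ _
  have hR : R ≠ 0 := by
    intro h0
    have h3 := hev g τ' hgb
    rw [h0, map_zero] at h3
    exact mul_ne_zero (pow_ne_zero 2 hdet) hval h3.symm
  refine count1 K0 dd h G hG R hR ?_
  -- the value at `G`
  have hbd : ∀ a j, K.bd (fun a j => algebraMap B L (G a j)) a j = algebraMap B L (K.bd G a j) := by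
    intro a j
    simp only [Bk.bd]
    split_ifs
    · rfl
    · exact (map_zero _).symm
  have hbL : ∀ a, ∑ j, K.bd (fun a j => algebraMap B L (G a j)) a j * τ j = algebraMap K0 L (b a) := by
    intro a
    have h3 := hb a
    rw [pt] at h3
    simp only [hbd]
    exact h3
  rw [hev (fun a j => algebraMap B L (G a j)) τ hbL]
  -- the Taylor polynomials over `L`
  have htay : tay (fun a => (b a : L)) (f i) = MvPolynomial.map (algebraMap K0 L) (tay b (f i)) := by
    have h3 : MvPolynomial.map (algebraMap K0 L) (tay b (f i)) =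
      MvPolynomial.mapAlgHom (IsScalarTower.toAlgHom k0 K0 L) (tay b (f i)) := rfl
    rw [h3]
    unfold tay
    rw [MvPolynomial.comp_aeval_apply]
    congr 2
    funext j
    rw [map_add]
    congr 1
    · exact (MvPolynomial.map_C (algebraMap K0 L) (b j)).symm
    · exact (MvPolynomial.map_X (algebraMap K0 L) j).symm
  have hqp : qp (fun a => (b a : L)) (f i) = MvPolynomial.map (algebraMap K0 L) Q := by
    rw [hQdef, qp, qp, htay]
    ext e
    rw [MvPolynomial.coeff_homogeneousComponent, MvPolynomial.coeff_map, MvPolynomial.coeff_map,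
      MvPolynomial.coeff_homogeneousComponent]
    split_ifs
    · rfl
    · exact (map_zero _).symm
  have hcoef : ∀ d : Fin N →₀ ℕ, d.degree ≤ 1 →
      MvPolynomial.coeff d (tay (fun a => (b a : L)) (f i)) = 0 := by
    intro d hd1
    rw [htay, MvPolynomial.coeff_map, h1' i d hd1, map_zero]
  have hy0 : ∀ a, ((∑ j, Polynomial.C (algebraMap B L (K.bd G a j) * τ j) *
      (1 + Polynomial.X) ^ (K.wt j) : Polynomial L)).coeff 0 = (b a : L) := by
    intro a
    rw [← hb a, pt, Polynomial.finsetSum_coeff]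
    refine Finset.sum_congr rfl fun j _ => ?_
    rw [Polynomial.coeff_C_mul, Polynomial.coeff_zero_eq_eval_zero]
    simp
  have hy1 : ∀ a, ((∑ j, Polynomial.C (algebraMap B L (K.bd G a j) * τ j) *
      (1 + Polynomial.X) ^ (K.wt j) : Polynomial L)).coeff 1 =
        ∑ j, K.bd (fun a j => algebraMap B L (G a j)) a j * ((K.wt j : L) * τ j) := by
    intro a
    rw [Polynomial.finsetSum_coeff]
    refine Finset.sum_congr rfl fun j _ => ?_
    rw [Polynomial.coeff_C_mul, hbd, add_comm (1 : Polynomial L), Polynomial.coeff_X_add_one_pow,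
      Nat.choose_one_right]
    ring
  have h4 := (tay2 (f i) (fun a => (b a : L)) hcoef (fun a => ∑ j, Polynomial.C (algebraMap B L (K.bd G a j) * τ j) *
      (1 + Polynomial.X) ^ (K.wt j)) hy0).2.2
  have h5 : (K.Lp f G τ i).coeff 2 = 0 := by
    by_contra hc
    exact hl ⟨2, le_refl _, i, hc⟩
  rw [Bk.Lp] at h5
  rw [h5, hqp] at h4
  simp only [hy1] at h4
  rw [MvPolynomial.aeval_map_algebraMap] at h4
  rw [← h4, mul_zero]

end MP2619.Q6
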