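import Pool.Agent.Lib.MP_2619d0_ag.Y.Y0

/-!
Row y-6: scaling
-/

set_option autoImplicit false

namespace MP2619.Q6

open scoped NNReal
open IntermediateField MP2619.R MP2619.N Pool.Agent.Lib.MP_2619d0_ag Pool.Agent.Lib.MP_2619d0_ag.T
  MP2619.Q5

theorem y6_bsmul {n N s : ℕ} (K : Bk n N s) {k A : Type} [Field k] [CommRing A] [Algebra k A]
    {g : MvPolynomial (Fin N) k} {d : Fin s → ℕ} (hd : K.MH g d) (c : Fin s → A)
    (p : Fin N → A) : MvPolynomial.aeval (fun j => c (K.bl j) * p j) g =
      (∏ l, c l ^ d l) * MvPolynomial.aeval p g := by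
  rw [MvPolynomial.aeval_def, MvPolynomial.aeval_def, MvPolynomial.eval₂_eq',
    MvPolynomial.eval₂_eq', Finset.mul_sum]
  refine Finset.sum_congr rfl fun e he => ?_
  have h1 := hd e (MvPolynomial.mem_support_iff.1 he)
  have h2 : ∏ j, c (K.bl j) ^ e j = ∏ l, c l ^ d l := by
    rw [← Finset.prod_fiberwise_of_maps_to (s := Finset.univ) (t := Finset.univ) (g := K.bl)
      (fun j _ => Finset.mem_univ _)]
    refine Finset.prod_congr rfl fun l _ => ?_
    rw [← h1 l, ← Finset.prod_pow_eq_pow_sum]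
    refine Finset.prod_congr rfl fun j hj => ?_
    rw [(Finset.mem_filter.1 hj).2]
  rw [← h2]
  simp only [mul_pow, Finset.prod_mul_distrib]
  ring

theorem y6_coeff {N : ℕ} {κ : Type} [Field κ] (b : Fin N → κ) (g : MvPolynomial (Fin N) κ)
    (d0 : Fin N →₀ ℕ) :
    MvPolynomial.coeff d0 (MvPolynomial.aeval (fun j => MvPolynomial.C (b j) * MvPolynomial.X j :
      Fin N → MvPolynomial (Fin N) κ) g) = (∏ j, b j ^ d0 j) * MvPolynomial.coeff d0 g := by
  classical
  induction g using MvPolynomial.induction_on' with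
  | monomial e a =>
    have h1 : MvPolynomial.aeval (fun j => MvPolynomial.C (b j) * MvPolynomial.X j :
        Fin N → MvPolynomial (Fin N) κ) (MvPolynomial.monomial e a) =
          MvPolynomial.monomial e (a * ∏ j, b j ^ e j) := by
      rw [MvPolynomial.aeval_monomial, MvPolynomial.algebraMap_eq, Finsupp.prod_fintype _ _
        (fun i => pow_zero _)]
      simp only [mul_pow, Finset.prod_mul_distrib]
      rw [MvPolynomial.monomial_eq, Finsupp.prod_fintype _ _ (fun i => pow_zero _)]
      simp only [map_mul, map_prod, map_pow]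
      ring
    rw [h1, MvPolynomial.coeff_monomial, MvPolynomial.coeff_monomial]
    by_cases h : e = d0
    · rw [if_pos h, if_pos h, h, mul_comm]
    · rw [if_neg h, if_neg h, mul_zero]
  | add p q hp hq =>
    rw [map_add, MvPolynomial.coeff_add, MvPolynomial.coeff_add, hp, hq, mul_add]

/-- `f i (c (P0 + X)) = ∏ c l ^ d l * f i (P0 + X)` (see `Bk.fe_bsmul`, Q7/T5.lean, over the ring `MvPolynomial (Fin N) κ`), and the left hand side is `tay (c P0) (f i)` after the substitution
`X j ↦ C (c (K.bl j)) * X j`, which multiplies the coefficient of `X^d` by `∏ c (K.bl j) ^ (d j) ≠ 0`. -/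
theorem tayNe_smul {n N s r t : ℕ} (K : Bk n N s) {k κ : Type} [Field k] [Field κ] [Algebra k κ]
    (f : Fin r → MvPolynomial (Fin N) k) {d : Fin s → ℕ} (hd : ∀ i, K.MH (f i) d)
    (P0 : Fin N → κ) (c : Fin s → κ) (hc : ∀ i, c i ≠ 0) (h : TayNe t f P0) :
    TayNe t f (fun j => c (K.bl j) * P0 j) := by
  obtain ⟨i, d0, hd0, h0⟩ := h
  refine ⟨i, d0, hd0, fun h1 => h0 ?_⟩
  have e1 : MvPolynomial.aeval (fun j => MvPolynomial.C (c (K.bl j)) * MvPolynomial.X j :
      Fin N → MvPolynomial (Fin N) κ) (MvPolynomial.aeval (fun j => MvPolynomial.C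
        (c (K.bl j) * P0 j) + MvPolynomial.X j : Fin N → MvPolynomial (Fin N) κ) (f i)) =
      (∏ l, (MvPolynomial.C (c l) : MvPolynomial (Fin N) κ) ^ d l) * MvPolynomial.aeval
        (fun j => MvPolynomial.C (P0 j) + MvPolynomial.X j : Fin N → MvPolynomial (Fin N) κ)
          (f i) := by
    rw [← y6_bsmul K (hd i) (fun l => (MvPolynomial.C (c l) : MvPolynomial (Fin N) κ))]
    have e2 := MvPolynomial.comp_aeval_apply (R := k)
      (f := (fun j => MvPolynomial.C (c (K.bl j) * P0 j) + MvPolynomial.X j :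
        Fin N → MvPolynomial (Fin N) κ))
      ((MvPolynomial.aeval (fun j => MvPolynomial.C (c (K.bl j)) * MvPolynomial.X j :
        Fin N → MvPolynomial (Fin N) κ)).restrictScalars k) (f i)
    refine Eq.trans e2 ?_
    refine congrArg (fun q : Fin N → MvPolynomial (Fin N) κ => MvPolynomial.aeval q (f i)) ?_
    funext j
    rw [AlgHom.restrictScalars_apply, map_add, MvPolynomial.aeval_C, MvPolynomial.aeval_X,
      MvPolynomial.algebraMap_eq, map_mul]
    ring
  have e3 := congrArg (MvPolynomial.coeff d0) e1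
  rw [y6_coeff (fun j => c (K.bl j)), h1, mul_zero] at e3
  have e4 : (∏ l, (MvPolynomial.C (c l) : MvPolynomial (Fin N) κ) ^ d l) =
      MvPolynomial.C (∏ l, c l ^ d l) := by
    simp only [map_prod, map_pow]
  rw [e4, MvPolynomial.coeff_C_mul] at e3
  have e5 : (∏ l, c l ^ d l) ≠ 0 := Finset.prod_ne_zero_iff.2 fun l _ => pow_ne_zero _ (hc l)
  exact (mul_eq_zero.1 e3.symm).resolve_left e5

/-- a field extension does not change the Taylor coefficients -/
theorem tayNe_map {N r t : ℕ} {k κ κ' : Type} [Field k] [Field κ] [Field κ'] [Algebra k κ]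
    [Algebra k κ'] [Algebra κ κ'] [IsScalarTower k κ κ'] (f : Fin r → MvPolynomial (Fin N) k)
    (P0 : Fin N → κ) : TayNe t f (fun j => algebraMap κ κ' (P0 j)) ↔ TayNe t f P0 := by
  have key : ∀ g : MvPolynomial (Fin N) k,
      MvPolynomial.aeval (fun j => MvPolynomial.C (algebraMap κ κ' (P0 j)) + MvPolynomial.X j :
        Fin N → MvPolynomial (Fin N) κ') g =
      MvPolynomial.map (algebraMap κ κ') (MvPolynomial.aeval (fun j => MvPolynomial.C (P0 j) +
        MvPolynomial.X j : Fin N → MvPolynomial (Fin N) κ) g) := by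
    intro g
    have e2 := MvPolynomial.map_eval₂Hom (algebraMap k (MvPolynomial (Fin N) κ))
      (fun j => MvPolynomial.C (P0 j) + MvPolynomial.X j : Fin N → MvPolynomial (Fin N) κ)
      (MvPolynomial.map (algebraMap κ κ')) g
    refine Eq.trans ?_ e2.symm
    rw [MvPolynomial.aeval_def, ← MvPolynomial.coe_eval₂Hom]
    congr 1
    congr 1
    · refine RingHom.ext fun x => ?_
      rw [RingHom.comp_apply, IsScalarTower.algebraMap_apply k κ (MvPolynomial (Fin N) κ),
        MvPolynomial.algebraMap_eq, MvPolynomial.map_C,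
        IsScalarTower.algebraMap_apply k κ' (MvPolynomial (Fin N) κ'), MvPolynomial.algebraMap_eq,
        ← IsScalarTower.algebraMap_apply k κ κ']
    · funext j
      rw [map_add, MvPolynomial.map_C, MvPolynomial.map_X]
  unfold TayNe
  constructor
  · rintro ⟨i, d, hd, h⟩
    refine ⟨i, d, hd, fun h0 => h ?_⟩
    rw [key, MvPolynomial.coeff_map, h0, map_zero]
  · rintro ⟨i, d, hd, h⟩
    refine ⟨i, d, hd, fun h0 => h ?_⟩
    rw [key, MvPolynomial.coeff_map] at h0
    exact (map_eq_zero (algebraMap κ κ')).1 h0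

/-- `K.Lp f G (c τ) i = C (∏ c l ^ d l) * K.Lp f G τ i` -/
theorem low2_smul {n N s r : ℕ} (K : Bk n N s) {k0 B L : Type} [Field k0] [Field B] [Field L]
    [Algebra k0 L] [Algebra B L] (f : Fin r → MvPolynomial (Fin N) k0) {d : Fin s → ℕ}
    (hd : ∀ i, K.MH (f i) d) (G : Fin N → Fin N → B) (τ : Fin N → L) (c : Fin s → L)
    (hc : ∀ i, c i ≠ 0) (h : K.Low2 f G (fun j => c (K.bl j) * τ j)) : K.Low2 f G τ := by
  obtain ⟨k, hk, i, h0⟩ := h
  refine ⟨k, hk, i, fun h1 => h0 ?_⟩
  have e1 : K.Lp f G (fun j => c (K.bl j) * τ j) i =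
      Polynomial.C (∏ l, c l ^ d l) * K.Lp f G τ i := by
    unfold Bk.Lp
    have e2 : (Polynomial.C (∏ l, c l ^ d l) : Polynomial L) =
        ∏ l, (Polynomial.C (c l) : Polynomial L) ^ d l := by
      simp only [map_prod, map_pow]
    rw [e2, ← y6_bsmul K (hd i) (fun l => (Polynomial.C (c l) : Polynomial L))]
    congr 1
    congr 1
    funext a
    rw [Finset.mul_sum]
    refine Finset.sum_congr rfl fun j _ => ?_
    unfold Bk.bd
    by_cases hb : K.bl a = K.bl j
    · rw [if_pos hb, hb]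
      simp only [map_mul]
      ring
    · rw [if_neg hb, map_zero]
      simp
  rw [e1, Polynomial.coeff_C_mul, h1, mul_zero]

end MP2619.Q6
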