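import Pool.Agent.Lib.MP_2619d0_ag.Q7.T21
import Pool.Agent.Lib.MP_2619d0_ag.Y.Y5
import Pool.Agent.Lib.MP_2619d0_ag.Y.Y6

/-!
# Double points: either the path has order at most two, or the matrix is special
-/

set_option autoImplicit false

namespace MP2619.Q6

open scoped NNReal
open IntermediateField MP2619.R MP2619.N Pool.Agent.Lib.MP_2619d0_ag Pool.Agent.Lib.MP_2619d0_ag.T
  MP2619.Q5

variable {k0 B L : Type} [Field k0] [Field B] [Field L] [Algebra k0 B] [Algebra B L]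
  [Algebra k0 L] [IsScalarTower k0 B L]

/-- `low_count0` without normalisation -/
theorem low_count {n N s r : ℕ} [CharZero k0] (K : Bk n N s)
    (f : Fin r → MvPolynomial (Fin N) k0) {d : Fin s → ℕ} (hd : ∀ i, K.MH (f i) d)
    (G : Fin N → Fin N → B)
    (hG : AlgebraicIndependent k0 (fun q : Fin N × Fin N => G q.1 q.2)) (τ : Fin N → L)
    (hτ : K.Nz τ) (K0 : IntermediateField k0 L) (dd : ℕ) (h : Algebra.trdeg k0 K0 ≤ dd)
    (hr : ∀ i j, K.bl i = K.bl j → pt (K.bd G) τ i / pt (K.bd G) τ j ∈ K0)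
    (h1 : ¬ TayNe 1 f (pt (K.bd G) τ)) (h2 : TayNe 2 f (pt (K.bd G) τ))
    (hl : ¬ K.Low2 f G τ) :
    ∃ δ : ℕ, Algebra.trdeg B (adjoin B (K0 : Set L)) ≤ δ ∧ δ + 1 ≤ dd := by
  classical
  have hP0 : K.Nz (pt (K.bd G) τ) := pt_neB K G hG _ hτ
  choose l hbl hl0 using hP0
  have hc0 : ∀ i, (pt (K.bd G) τ (l i))⁻¹ ≠ 0 := fun i => inv_ne_zero (hl0 i)
  have hpt : pt (K.bd G) (fun j => (pt (K.bd G) τ (l (K.bl j)))⁻¹ * τ j) =
      fun i => (pt (K.bd G) τ (l (K.bl i)))⁻¹ * pt (K.bd G) τ i :=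
    K.pt_bsmul G (fun i => (pt (K.bd G) τ (l i))⁻¹) τ
  have hmem : ∀ a, (pt (K.bd G) τ (l (K.bl a)))⁻¹ * pt (K.bd G) τ a ∈ K0 := by
    intro a
    rw [← div_eq_inv_mul]
    exact hr a _ (hbl _).symm
  refine low_count0 K f hd G hG (fun j => (pt (K.bd G) τ (l (K.bl j)))⁻¹ * τ j) K0 dd h
    (fun a => ⟨_, hmem a⟩) (fun a => congrFun hpt a) ?_ ?_ ?_ ?_
  · intro i
    refine ⟨l i, hbl i, ?_⟩
    intro h3
    have h4 := congrArg Subtype.val h3
    change (pt (K.bd G) τ (l (K.bl (l i))))⁻¹ * pt (K.bd G) τ (l i) = 0 at h4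
    rw [hbl, inv_mul_cancel₀ (hl0 i)] at h4
    exact one_ne_zero h4
  · intro h3
    have h4 := (tayNe_map (κ' := L) f _).2 h3
    have h5 := tayNe_smul K f hd _ (fun i => pt (K.bd G) τ (l i)) (fun i => hl0 i) h4
    apply h1
    have h6 : (fun j => pt (K.bd G) τ (l (K.bl j)) * algebraMap K0 L
        (⟨(pt (K.bd G) τ (l (K.bl j)))⁻¹ * pt (K.bd G) τ j, hmem j⟩ : K0)) =
        pt (K.bd G) τ := by
      funext j
      change pt (K.bd G) τ (l (K.bl j)) * ((pt (K.bd G) τ (l (K.bl j)))⁻¹ * pt (K.bd G) τ j) = _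
      rw [← mul_assoc, mul_inv_cancel₀ (hl0 _), one_mul]
    rw [h6] at h5
    exact h5
  · refine (tayNe_map (κ' := L) f _).1 ?_
    exact tayNe_smul K f hd _ (fun i => (pt (K.bd G) τ (l i))⁻¹) hc0 h2
  · intro h3
    exact hl (low2_smul K f hd G τ (fun i => (pt (K.bd G) τ (l i))⁻¹) hc0 h3)

end MP2619.Q6
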