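import Pool.Agent.Lib.MP_2619d0_ag.Q5.Final
import Pool.Agent.Lib.MP_2619d0_ag.Q9.Final

/-!
Row y-7: products of dimension four, one degree five
-/

set_option autoImplicit false

namespace MP2619.Q9

universe u

open MvPolynomial Pool.Agent.Lib.MP_2619d0_ag Pool.Agent.Lib.MP_2619d0_ag.T MP2619.T MP2619.Q6

/-- forms restricted to one block, with the coordinates renamed, are forms -/
private theorem Y13_hom {n N s r : ℕ} (K : Bk n N s) (g : MvPolynomial (Fin N) ℂ) {e : Fin s → ℕ}
    (hg : K.MH g e) (i0 : Fin s) (c : Fin N → ℂ) (ι : Fin N → Fin r) :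
    (aeval (fun l => if K.bl l ∈ Finset.univ.erase i0 then C (c l) else X (ι l) :
      Fin N → MvPolynomial (Fin r) ℂ) g).IsHomogeneous (e i0) := by
  classical
  rw [aeval_def, eval₂_eq']
  refine IsHomogeneous.sum _ _ _ fun d hdi => ?_
  have h1 : (∏ j : Fin N, (if K.bl j ∈ Finset.univ.erase i0 then C (c j) else X (ι j) :
      MvPolynomial (Fin r) ℂ) ^ d j).IsHomogeneous
      (∑ j : Fin N, if K.bl j = i0 then d j else 0) := by
    refine IsHomogeneous.prod _ _ _ fun j _ => ?_
    by_cases h : K.bl j = i0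
    · rw [if_neg (by simp [h]), if_pos h]
      have h2 := (isHomogeneous_X ℂ (ι j)).pow (d j)
      rwa [one_mul] at h2
    · rw [if_pos (by simp [h]), if_neg h, ← C_pow]
      exact isHomogeneous_C _ _
  rw [← Finset.sum_filter, hg d (mem_support_iff.1 hdi) i0] at h1
  have h3 := (isHomogeneous_C (Fin r) (algebraMap ℂ ℂ (coeff d g))).mul h1
  rw [zero_add] at h3
  exact h3

/-- the coordinates of one block embed in five -/
private theorem Y13_inj {N s : ℕ} (K : Bk 4 N s) :
    ∃ ι : Fin N → Fin 5, ∀ l l', K.bl l = K.bl l' → ι l = ι l' → l = l' := by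
  classical
  refine ⟨fun l => if h : K.wt l ≠ 0 then (K.ix ⟨l, h⟩).succ else 0, fun l l' hb hl => ?_⟩
  by_cases h1 : K.wt l ≠ 0
  · by_cases h2 : K.wt l' ≠ 0
    · simp only [dif_pos h1, dif_pos h2] at hl
      have h3 := K.ix.injective (Fin.succ_injective _ hl)
      exact congrArg Subtype.val h3
    · simp only [dif_pos h1, dif_neg h2] at hl
      exact absurd hl (Fin.succ_ne_zero _)
  · by_cases h2 : K.wt l' ≠ 0
    · simp only [dif_neg h1, dif_pos h2] at hl
      exact absurd hl.symm (Fin.succ_ne_zero _)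
    · exact K.inj l l' hb ((not_not.1 h1).trans (not_not.1 h2).symm)

/-- As `q9_final` (Q9/Final.lean; copy its private lemma `restrict_hom`): `block_all` with `m = 4`, `S = univ.erase i0` gives constants `c` for the other blocks. The block `i0` has at most five coordinates
(`K.ix`: `N = 4 + s` coordinates, every block has the coordinate `K.o i`), so there is `ι : Fin N → Fin 5`, injective on the block. Let `g j = aeval (fun l => if K.bl l = i0 then X (ι l) else C (c l)) (f j)`,
homogeneous of degree `e i0` in five variables, `aeval g F = 0`, and let `p5` be the coordinates of `p` in the block `i0` (`p5 (ι l) = p l`, other coordinates zero). Then `aeval p5 (g j)` is the value of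
`block_all`, an odd point (`OP`): contradiction to `MP2619.Q5.q5_final` with `e i0 ≤ 5`. -/
theorem five_block {N s : ℕ} (K : Bk 4 N s) {F : MvPolynomial (Fin 6) ℂ} (hF : VG F)
    (f : Fin 6 → MvPolynomial (Fin N) ℂ) {e : Fin s → ℕ} (hd : ∀ i, K.MH (f i) e)
    (h0 : aeval f F = 0) (i0 : Fin s) (he : e i0 ≤ 5) (hi : ∀ i, i ≠ i0 → e i ≤ 2)
    {L : Type u} [Field L] [Algebra ℂ L] (p : Fin N → L)
    (hx : HG F (fun j => aeval p (f j))) :
    ¬ Odd (Module.finrank (ratioField (fun j => aeval p (f j))) L) := by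
  classical
  intro hodd
  have hNS : MP2619.N.NoSum.{u} F := MP2619.N.noSum (n := 6) (by omega) hF
  obtain ⟨c, hcc⟩ := block_all (m := 4) (by omega) K hF hNS f hd h0 p ⟨hx, hodd⟩
    (Finset.univ.erase i0) (fun i h => hi i (Finset.ne_of_mem_erase h))
  obtain ⟨ι, hι⟩ := Y13_inj K
  obtain ⟨g, hgd⟩ : ∃ g : Fin 6 → MvPolynomial (Fin 5) ℂ, g = fun j =>
    aeval (fun l => if K.bl l ∈ Finset.univ.erase i0 then C (c l) else X (ι l) :
      Fin N → MvPolynomial (Fin 5) ℂ) (f j) := ⟨_, rfl⟩
  have hg : ∀ j, (g j).IsHomogeneous (e i0) := fun j => by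
    rw [hgd]
    exact Y13_hom K (f j) (hd j) i0 c ι
  have hg0 : aeval g F = 0 := by
    rw [hgd, ← MvPolynomial.comp_aeval_apply, h0, map_zero]
  obtain ⟨p5, hp5⟩ : ∃ p5 : Fin 5 → L, ∀ l, K.bl l = i0 → p5 (ι l) = p l := by
    refine ⟨fun u => if h : ∃ l, K.bl l = i0 ∧ ι l = u then p h.choose else 0, fun l hl => ?_⟩
    have hex : ∃ l', K.bl l' = i0 ∧ ι l' = ι l := ⟨l, hl, rfl⟩
    simp only [dif_pos hex]
    congr 1
    exact hι _ _ (hex.choose_spec.1.trans hl.symm) hex.choose_spec.2
  have hgp : (fun j => aeval p5 (g j)) = fun j =>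
      aeval (fun l => if K.bl l ∈ Finset.univ.erase i0 then algebraMap ℂ L (c l) else p l)
        (f j) := by
    funext j
    rw [hgd]
    change aeval p5 (aeval (fun l => if K.bl l ∈ Finset.univ.erase i0 then C (c l) else X (ι l) :
      Fin N → MvPolynomial (Fin 5) ℂ) (f j)) = _
    rw [MvPolynomial.comp_aeval_apply]
    congr 2
    funext l
    by_cases h : K.bl l ∈ Finset.univ.erase i0
    · rw [if_pos h, if_pos h, aeval_C]
    · rw [if_neg h, if_neg h, aeval_X]
      refine hp5 l ?_
      simpa using h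
  rw [← hgp] at hcc
  exact MP2619.Q5.q5_final hF g hg hg0 (Or.inl he) p5 hcc.1 hcc.2

end MP2619.Q9
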