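import Pool.Agent.Lib.MP_2619d0_ag.Q8.N5V
import Pool.Agent.Lib.MP_2619d0_ag.Y.Y0

/-!
# Taylor coefficients at the points of the closure
-/

set_option autoImplicit false

namespace MP2619.Q6

universe u

open scoped NNReal
open IntermediateField MP2619.R MP2619.N Pool.Agent.Lib.MP_2619d0_ag Pool.Agent.Lib.MP_2619d0_ag.T
  MP2619.T MP2619.Q5

/-- Taylor polynomials and algebra homomorphisms -/
theorem tay_algHom {N : ℕ} {k A B : Type} [Field k] [CommRing A] [CommRing B] [Algebra k A]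
    [Algebra k B] (φ : A →ₐ[k] B) (P : Fin N → A) (p : MvPolynomial (Fin N) k) :
    MvPolynomial.map (φ : A →+* B) (MvPolynomial.aeval
      (fun j => MvPolynomial.C (P j) + MvPolynomial.X j : Fin N → MvPolynomial (Fin N) A) p) =
      MvPolynomial.aeval
        (fun j => MvPolynomial.C (φ (P j)) + MvPolynomial.X j : Fin N → MvPolynomial (Fin N) B)
        p := by
  have h : (MvPolynomial.mapAlgHom φ).comp (MvPolynomial.aeval
      (fun j => MvPolynomial.C (P j) + MvPolynomial.X j : Fin N → MvPolynomial (Fin N) A)) =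
      (MvPolynomial.aeval
        (fun j => MvPolynomial.C (φ (P j)) + MvPolynomial.X j : Fin N → MvPolynomial (Fin N) B) :
        MvPolynomial (Fin N) k →ₐ[k] MvPolynomial (Fin N) B) := by
    apply MvPolynomial.algHom_ext
    intro j
    simp [MvPolynomial.mapAlgHom_apply]
  exact DFunLike.congr_fun h p

/-- Nullstellensatz -/
theorem exists_hom_C {k A : Type} [Field k] [CommRing A] [Nontrivial A] [Algebra k A]
    [Algebra.FiniteType k A] [Algebra k ℂ] : Nonempty (A →ₐ[k] ℂ) := by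
  obtain ⟨m, hm⟩ := Ideal.exists_maximal A
  let _ : Field (A ⧸ m) := Ideal.Quotient.field m
  have hft : Algebra.FiniteType k (A ⧸ m) :=
    Algebra.FiniteType.of_surjective (Ideal.Quotient.mkₐ k m) (Ideal.Quotient.mkₐ_surjective k m)
  have hfin : Module.Finite k (A ⧸ m) := finite_of_finite_type_of_isJacobsonRing k (A ⧸ m)
  have halg : Algebra.IsAlgebraic k (A ⧸ m) := Algebra.IsAlgebraic.of_finite k (A ⧸ m)
  exact ⟨(IsAlgClosed.lift : (A ⧸ m) →ₐ[k] ℂ).comp (Ideal.Quotient.mkₐ k m)⟩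

/-- `mult1V_of_CB` (Q8/N5V) for the order `t` -/
theorem tayNe_of_CB {m N s t : ℕ} (K : Bk m N s) {k0 Q : Type} [Field k0] [Algebra k0 ℂ] [Field Q]
    [Algebra k0 Q] {n : ℕ} (f0 : Fin n → MvPolynomial (Fin N) k0) (p' : Fin N → Q)
    {L : Type u} [Field L] [Algebra ℂ L] (p : Fin N → L)
    (hrel : ∀ (g : MvPolynomial (Fin N) k0) (d : Fin s → ℕ), K.MH g d →
      MvPolynomial.aeval p (MvPolynomial.map (algebraMap k0 ℂ) g) = 0 →
        MvPolynomial.aeval p' g = 0)
    (hgen : ∀ P : Fin N → ℂ,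
      (∀ (g : MvPolynomial (Fin N) k0) (d : Fin s → ℕ), K.MH g d →
        MvPolynomial.aeval p (MvPolynomial.map (algebraMap k0 ℂ) g) = 0 →
          MvPolynomial.aeval P g = 0) →
      ∀ (g : MvPolynomial (Fin N) ℂ) (d : Fin s → ℕ), K.MH g d →
        MvPolynomial.aeval p g = 0 → MvPolynomial.aeval P g = 0)
    (h : ∀ P0 : Fin N → ℂ, K.Nz P0 →
      (∀ (g : MvPolynomial (Fin N) ℂ) (d : Fin s → ℕ), K.MH g d →
        MvPolynomial.aeval p g = 0 → MvPolynomial.aeval P0 g = 0) →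
      TayNe t (fun i => MvPolynomial.map (algebraMap k0 ℂ) (f0 i)) P0)
    (κ : Type) [Field κ] [Algebra k0 κ] (P0 : Fin N → κ) (hP0 : K.Nz P0) (hsp : K.Sp k0 p' P0) :
    TayNe t f0 P0 := by
  classical
  choose J hJ hJ0 using hP0
  let A : Subalgebra k0 κ := Algebra.adjoin k0 (Set.range P0 ∪ Set.range fun i => (P0 (J i))⁻¹)
  have hP : ∀ j, P0 j ∈ A := fun j => Algebra.subset_adjoin (Or.inl ⟨j, rfl⟩)
  have hQ : ∀ i, (P0 (J i))⁻¹ ∈ A := fun i => Algebra.subset_adjoin (Or.inr ⟨i, rfl⟩)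
  have hft : Algebra.FiniteType k0 A :=
    A.fg_iff_finiteType.1 (Subalgebra.fg_def.2
      ⟨_, (Set.finite_range P0).union (Set.finite_range _), rfl⟩)
  obtain ⟨g⟩ : Nonempty (A →ₐ[k0] ℂ) := exists_hom_C
  let PA : Fin N → A := fun j => ⟨P0 j, hP j⟩
  have hP1 : K.Nz (fun j => g (PA j)) := by
    intro i
    refine ⟨J i, hJ i, fun h0 => ?_⟩
    have h1 : PA (J i) * (⟨(P0 (J i))⁻¹, hQ i⟩ : A) = 1 := Subtype.ext (mul_inv_cancel₀ (hJ0 i))
    have h2 := congrArg g h1
    rw [map_mul, map_one, show g (PA (J i)) = 0 from h0, zero_mul] at h2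
    exact zero_ne_one h2
  have hcl : ∀ (g' : MvPolynomial (Fin N) ℂ) (d : Fin s → ℕ), K.MH g' d →
      MvPolynomial.aeval p g' = 0 → MvPolynomial.aeval (fun j => g (PA j)) g' = 0 := by
    refine hgen _ fun g0 d hg0 h0 => ?_
    have h1 := hsp g0 d hg0 (hrel g0 d hg0 h0)
    have h2 : MvPolynomial.aeval PA g0 = 0 := by
      have h3 := MvPolynomial.comp_aeval_apply PA A.val g0
      apply Subtype.ext
      exact h3.trans h1
    have h3 := MvPolynomial.comp_aeval_apply PA g g0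
    rw [h2, map_zero] at h3
    exact h3.symm
  obtain ⟨i, m, hm, hc⟩ := h _ hP1 hcl
  refine ⟨i, m, hm, fun h0 => hc ?_⟩
  have e1 := tay_algHom g PA (f0 i)
  have e2 := tay_algHom A.val PA (f0 i)
  have h1 : MvPolynomial.coeff m (MvPolynomial.aeval
      (fun j => MvPolynomial.C (PA j) + MvPolynomial.X j : Fin N → MvPolynomial (Fin N) A)
      (f0 i)) = 0 := by
    have h2 := congrArg (MvPolynomial.coeff m) e2
    rw [MvPolynomial.coeff_map] at h2
    exact Subtype.ext (h2.trans h0)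
  rw [MvPolynomial.aeval_map_algebraMap, ← e1, MvPolynomial.coeff_map, h1, map_zero]

theorem TayNe.mono {N r t t' : ℕ} {k κ : Type} [Field k] [Field κ] [Algebra k κ]
    {f : Fin r → MvPolynomial (Fin N) k} {P0 : Fin N → κ} (h : TayNe t f P0) (ht : t ≤ t') :
    TayNe t' f P0 := by
  obtain ⟨i, d, hd, hc⟩ := h
  exact ⟨i, d, hd.trans ht, hc⟩

end MP2619.Q6
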