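import Pool.Agent.Lib.MP_2619d0_ag.Y.Y0

/-!
Row y-1: the coefficient of order two of a polynomial along a curve through a double point
-/

set_option autoImplicit false

namespace MP2619.Q6

open scoped NNReal
open IntermediateField MP2619.R MP2619.N Pool.Agent.Lib.MP_2619d0_ag Pool.Agent.Lib.MP_2619d0_ag.T
  MP2619.Q5

/-- the value of `g` along `y` is the value of the Taylor polynomial along `X * r` -/
private theorem Y1_comp {N : ℕ} {k κ : Type} [Field k] [Field κ] [Algebra k κ]
    (g : MvPolynomial (Fin N) k) (P0 : Fin N → κ) (y : Fin N → Polynomial κ)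
    (hy : ∀ a, (y a).coeff 0 = P0 a) :
    MvPolynomial.aeval y g =
      MvPolynomial.aeval (fun a => Polynomial.X * (y a).divX) (tay P0 g) := by
  have h : (MvPolynomial.aeval y : MvPolynomial (Fin N) k →ₐ[k] Polynomial κ) =
      ((MvPolynomial.aeval (fun a => Polynomial.X * (y a).divX) :
        MvPolynomial (Fin N) κ →ₐ[κ] Polynomial κ).restrictScalars k).comp
        (MvPolynomial.aeval (fun j => MvPolynomial.C (P0 j) + MvPolynomial.X j :
          Fin N → MvPolynomial (Fin N) κ)) := by
    apply MvPolynomial.algHom_ext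
    intro a
    simp only [MvPolynomial.aeval_X, AlgHom.comp_apply, AlgHom.restrictScalars_apply, map_add,
      MvPolynomial.algHom_C]
    rw [← hy a, Polynomial.algebraMap_eq, add_comm]
    exact (Polynomial.X_mul_divX_add (y a)).symm
  rw [h]
  rfl

/-- one term -/
private theorem Y1_term {N : ℕ} {κ : Type} [Field κ] (c : κ) (r : Fin N → Polynomial κ)
    (d : Fin N →₀ ℕ) :
    Polynomial.C c * ∏ i, (Polynomial.X * r i) ^ d i =
      (Polynomial.C c * ∏ i, (r i) ^ d i) * Polynomial.X ^ d.degree := by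
  have h : ∏ i, (Polynomial.X * r i) ^ d i = (∏ i, (r i) ^ d i) * Polynomial.X ^ d.degree := by
    rw [Finsupp.degree_eq_sum, ← Finset.prod_pow_eq_pow_sum, ← Finset.prod_mul_distrib]
    refine Finset.prod_congr rfl fun i _ => ?_
    rw [mul_pow, mul_comm]
  rw [h, mul_assoc]

/-- `y a = C (P0 a) + X * r a` (`Polynomial.divX`), so `g (y) = tay P0 g (X r) = ∑ coeff_d X^|d| ∏ (r a)^(d a)` (`MvPolynomial.comp_aeval`-style: `aeval y g = aeval (fun a => X * r a) (tay P0 g)`,
then `MvPolynomial.aeval_def`, `eval₂_eq'`). The terms with `|d| ≤ 1` are zero by `h`, those with `|d| ≥ 3` have order `≥ 3`, and for `|d| = 2` the coefficient of `X^2` is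
`coeff_d ∏ (r a).coeff 0 ^ (d a)`, `(r a).coeff 0 = (y a).coeff 1` (`MvPolynomial.coeff_homogeneousComponent`, `Finsupp.degree_eq_sum`). -/
theorem tay2 {N : ℕ} {k κ : Type} [Field k] [Field κ] [Algebra k κ] (g : MvPolynomial (Fin N) k)
    (P0 : Fin N → κ)
    (h : ∀ d : Fin N →₀ ℕ, d.degree ≤ 1 → MvPolynomial.coeff d (tay P0 g) = 0)
    (y : Fin N → Polynomial κ) (hy : ∀ a, (y a).coeff 0 = P0 a) :
    (MvPolynomial.aeval y g).coeff 0 = 0 ∧ (MvPolynomial.aeval y g).coeff 1 = 0 ∧
      (MvPolynomial.aeval y g).coeff 2 =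
        MvPolynomial.aeval (fun a => (y a).coeff 1) (qp P0 g) := by
  have h0 : MvPolynomial.aeval y g = ∑ d ∈ (tay P0 g).support,
      (Polynomial.C (MvPolynomial.coeff d (tay P0 g)) * ∏ i, ((y i).divX) ^ d i) *
        Polynomial.X ^ d.degree := by
    rw [Y1_comp g P0 y hy, MvPolynomial.aeval_def, MvPolynomial.eval₂_eq']
    refine Finset.sum_congr rfl fun d _ => ?_
    rw [← Y1_term, Polynomial.algebraMap_eq]
  have hlow : ∀ n, n ≤ 1 → (MvPolynomial.aeval y g).coeff n = 0 := by
    intro n hn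
    rw [h0, Polynomial.finsetSum_coeff]
    refine Finset.sum_eq_zero fun d _ => ?_
    rw [Polynomial.coeff_mul_X_pow']
    split_ifs with hd
    · rw [h d (hd.trans hn), map_zero, zero_mul, Polynomial.coeff_zero]
    · rfl
  refine ⟨hlow 0 (by norm_num), hlow 1 le_rfl, ?_⟩
  rw [h0, Polynomial.finsetSum_coeff, qp, MvPolynomial.homogeneousComponent_apply, map_sum,
    Finset.sum_filter]
  refine Finset.sum_congr rfl fun d _ => ?_
  rw [Polynomial.coeff_mul_X_pow']
  by_cases hd2 : d.degree = 2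
  · rw [if_pos hd2.le, if_pos hd2, hd2, MvPolynomial.aeval_monomial, Nat.sub_self,
      Polynomial.mul_coeff_zero, Polynomial.coeff_C_zero, Polynomial.coeff_zero_prod]
    rw [Finsupp.prod_fintype _ _ (fun i => pow_zero _)]
    congr 1
    refine Finset.prod_congr rfl fun i _ => ?_
    rw [Polynomial.coeff_zero_eq_eval_zero, Polynomial.eval_pow,
      ← Polynomial.coeff_zero_eq_eval_zero, Polynomial.coeff_divX]
  · rw [if_neg hd2]
    split_ifs with hd
    · rw [h d (by omega), map_zero, zero_mul, Polynomial.coeff_zero]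
    · rfl

end MP2619.Q6
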