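import Pool.Agent.Lib.MP_2619d0_ag.Y.Y1

/-!
Row y-2: the quadratic part at a double point does not see the radial directions
-/

set_option autoImplicit false

namespace MP2619.Q6

open scoped NNReal
open IntermediateField MP2619.R MP2619.N Pool.Agent.Lib.MP_2619d0_ag Pool.Agent.Lib.MP_2619d0_ag.T
  MP2619.Q5

private theorem Y2_bsmul {n N s : ℕ} (K : Bk n N s) {k R : Type} [Field k] [CommRing R] [Algebra k R]
    (g : MvPolynomial (Fin N) k) {d : Fin s → ℕ} (hd : K.MH g d) (c : Fin s → R) (p : Fin N → R) :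
    MvPolynomial.aeval (fun j => c (K.bl j) * p j) g = (∏ l, c l ^ d l) * MvPolynomial.aeval p g := by
  rw [MvPolynomial.aeval_def, MvPolynomial.aeval_def, MvPolynomial.eval₂_eq',
    MvPolynomial.eval₂_eq', Finset.mul_sum]
  refine Finset.sum_congr rfl fun e he => ?_
  have h1 := hd e (MvPolynomial.mem_support_iff.1 he)
  have h2 : ∏ j, c (K.bl j) ^ e j = ∏ l, c l ^ d l := by
    rw [← Finset.prod_fiberwise_of_maps_to (s := Finset.univ) (t := Finset.univ) (g := K.bl)
      (fun j _ => Finset.mem_univ _)]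
    refine Finset.prod_congr rfl fun l _ => ?_
    rw [← h1 l, ← Finset.prod_pow_eq_pow_sum]
    refine Finset.prod_congr rfl fun j hj => ?_
    rw [(Finset.mem_filter.1 hj).2]
  rw [← h2]
  simp only [mul_pow, Finset.prod_mul_distrib]
  ring

private theorem Y2_coeff_two {κ : Type} [Field κ] (P A : Polynomial κ) (hP : P.coeff 0 = 1)
    (h0 : A.coeff 0 = 0) (h1 : A.coeff 1 = 0) : (P * A).coeff 2 = A.coeff 2 := by
  rw [Polynomial.coeff_mul]
  simp [Finset.Nat.antidiagonal_succ, hP, h0, h1]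

/-- Let `y' a = C (P0 a) + C (v a) * X`, `y a = (1 + C (c (K.bl a)) * X) * y' a`. As in `Bk.fe_bsmul` (Q7/T5.lean), over the ring `Polynomial κ`:
`aeval y g = (∏ l, (1 + C (c l) * X) ^ d l) * aeval y' g`. Compare the coefficients of `X ^ 2`: `tay2` for `y` (`(y a).coeff 1 = v a + c (K.bl a) * P0 a`) and for `y'`
(`(y' a).coeff 1 = v a`; the coefficients of order `0`, `1` of `aeval y' g` vanish, and the product has constant coefficient `1`). -/
theorem rad2 {n N s : ℕ} (K : Bk n N s) {k κ : Type} [Field k] [Field κ] [Algebra k κ]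
    (g : MvPolynomial (Fin N) k) {d : Fin s → ℕ} (hd : K.MH g d) (P0 : Fin N → κ)
    (h : ∀ d : Fin N →₀ ℕ, d.degree ≤ 1 → MvPolynomial.coeff d (tay P0 g) = 0)
    (v : Fin N → κ) (c : Fin s → κ) :
    MvPolynomial.aeval (fun a => v a + c (K.bl a) * P0 a) (qp P0 g) =
      MvPolynomial.aeval v (qp P0 g) := by
  obtain ⟨y', hy'⟩ : ∃ y' : Fin N → Polynomial κ, ∀ a, y' a = Polynomial.C (P0 a) + Polynomial.C (v a) * Polynomial.X :=
    ⟨_, fun _ => rfl⟩
  obtain ⟨y, hy⟩ : ∃ y : Fin N → Polynomial κ, ∀ a, y a = (1 + Polynomial.C (c (K.bl a)) * Polynomial.X) * y' a :=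
    ⟨_, fun _ => rfl⟩
  have e0' : ∀ a, (y' a).coeff 0 = P0 a := by
    intro a
    rw [hy']
    simp
  have e1' : ∀ a, (y' a).coeff 1 = v a := by
    intro a
    rw [hy']
    simp [Polynomial.coeff_C]
  have ey : ∀ a, y a = y' a + Polynomial.C (c (K.bl a)) * y' a * Polynomial.X := by
    intro a
    rw [hy]
    ring
  have e0 : ∀ a, (y a).coeff 0 = P0 a := by
    intro a
    rw [ey, Polynomial.coeff_add, e0', Polynomial.coeff_mul_X_zero, add_zero]
  have e1 : ∀ a, (y a).coeff 1 = v a + c (K.bl a) * P0 a := by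
    intro a
    rw [ey, Polynomial.coeff_add, e1', Polynomial.coeff_mul_X, Polynomial.coeff_C_mul, e0']
  have hP : (∏ l, (1 + Polynomial.C (c l) * Polynomial.X) ^ d l : Polynomial κ).coeff 0 = 1 := by
    rw [Polynomial.coeff_zero_eq_eval_zero, Polynomial.eval_prod]
    simp
  have h1 : MvPolynomial.aeval y g =
      (∏ l, (1 + Polynomial.C (c l) * Polynomial.X) ^ d l : Polynomial κ) * MvPolynomial.aeval y' g := by
    have h2 : y = fun j => (fun l => (1 + Polynomial.C (c l) * Polynomial.X : Polynomial κ)) (K.bl j) * y' j := funext hy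
    rw [h2]
    exact Y2_bsmul K g hd (fun l => (1 + Polynomial.C (c l) * Polynomial.X : Polynomial κ)) y'
  obtain ⟨a1, a2, a3⟩ := tay2 g P0 h y e0
  obtain ⟨b1, b2, b3⟩ := tay2 g P0 h y' e0'
  have h2 : (MvPolynomial.aeval y g).coeff 2 = (MvPolynomial.aeval y' g).coeff 2 := by
    rw [h1]
    exact Y2_coeff_two _ _ hP b1 b2
  rw [a3, b3, funext e1, funext e1'] at h2
  exact h2

end MP2619.Q6
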